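import Pool.Agent.H12.CF.LaDef

/-!
PROJECT CF (MP_0d9ad5_pr, note 2718), LEMMA A, JOB CF-LaCnt: counting of the centres.
PROOF. `EE o` is contained in the union over `B` (countable) of `{cluster .. = B}` for those `B` with
`∃ y ∈ B, nm (y - o) ≤ R ∧ ∃ s, gx P st v B y s`, so `perc (EE o) ≤ ∑' B, cl B * ∑_{y ∈ B} ∑_s
(if gx then 1 else 0) * (if nm (y - o) ≤ R then 1 else 0)`. Sum over `o ∈ Q`; for fixed `y` at most
`(2R+1)^d` points `o` with `nm (y - o) ≤ R`.
-/

namespace CF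

open H5DF H95LBD MeasureTheory
open scoped ENNReal

variable {d : ℕ}

open Classical in
/-- The number of pairs (exit, direction) near `o`. -/
noncomputable def LaCnt_near (P : Par d) (st : St d) (v : V d) (o : V d) (R : ℕ)
    (B : Finset (V d)) : ℝ≥0∞ :=
  ∑ y ∈ B, ∑ s : Dir d, (if gx P st v B y s then (1 : ℝ≥0∞) else 0) *
    (if nm (y - o) ≤ R then 1 else 0)

lemma LaCnt_one (P : Par d) (st : St d) (v : V d) (o : V d) (R : ℕ) :
    perc d P.p (EE P st v o R) ≤
      ∑' B : Finset (V d), cl P.p (occ st.H) st.x B * LaCnt_near P st v o R B := by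
  classical
  have h1 : EE P st v o R ⊆ ⋃ B : Finset (V d),
      {ζ | cluster (cut ((occ st.H : Set (V d))ᶜ) ζ) st.x = (B : Set (V d)) ∧
        ∃ y ∈ B, nm (y - o) ≤ R ∧ ∃ s : Dir d, gx P st v B y s} := by
    rintro ζ ⟨B, hB, hy⟩
    exact Set.mem_iUnion.2 ⟨B, hB, hy⟩
  refine (measure_mono h1).trans ((measure_iUnion_le _).trans ?_)
  refine ENNReal.tsum_le_tsum fun B => ?_
  by_cases hB : ∃ y ∈ B, nm (y - o) ≤ R ∧ ∃ s : Dir d, gx P st v B y s
  · obtain ⟨y, hy, hn, s, hs⟩ := hB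
    have h2 : (1 : ℝ≥0∞) ≤ LaCnt_near P st v o R B := by
      have h3 : (1 : ℝ≥0∞) ≤ (if gx P st v B y s then (1 : ℝ≥0∞) else 0) *
          (if nm (y - o) ≤ R then 1 else 0) := by
        rw [if_pos hs, if_pos hn, one_mul]
      refine h3.trans ?_
      refine le_trans ?_ (Finset.single_le_sum (f := fun y => ∑ s : Dir d,
        (if gx P st v B y s then (1 : ℝ≥0∞) else 0) * (if nm (y - o) ≤ R then 1 else 0))
        (fun _ _ => zero_le) hy)
      exact Finset.single_le_sum (f := fun s : Dir d =>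
        (if gx P st v B y s then (1 : ℝ≥0∞) else 0) * (if nm (y - o) ≤ R then 1 else 0))
        (fun _ _ => zero_le) (Finset.mem_univ s)
    calc perc d P.p {ζ | cluster (cut ((occ st.H : Set (V d))ᶜ) ζ) st.x = (B : Set (V d)) ∧
          ∃ y ∈ B, nm (y - o) ≤ R ∧ ∃ s : Dir d, gx P st v B y s}
        ≤ cl P.p (occ st.H) st.x B := measure_mono fun ζ h => h.1
      _ = cl P.p (occ st.H) st.x B * 1 := (mul_one _).symm
      _ ≤ _ := by gcongr
  · have h2 : {ζ | cluster (cut ((occ st.H : Set (V d))ᶜ) ζ) st.x = (B : Set (V d)) ∧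
        ∃ y ∈ B, nm (y - o) ≤ R ∧ ∃ s : Dir d, gx P st v B y s} = (∅ : Set (Cfg d)) := by
      ext ζ
      simp only [Set.mem_ofPred_eq, Set.mem_empty_iff_false, iff_false]
      exact fun h => hB h.2
    rw [h2, measure_empty]
    exact zero_le

lemma LaCnt_centres (y : V d) (R : ℕ) (Q : Finset (V d)) :
    ∑ o ∈ Q, (if nm (y - o) ≤ R then (1 : ℝ≥0∞) else 0) ≤ (((2 * R + 1) ^ d : ℕ) : ℝ≥0∞) := by
  classical
  rw [← Finset.sum_filter, Finset.sum_const, nsmul_eq_mul, mul_one]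
  have h1 : (Q.filter fun o => nm (y - o) ≤ R) ⊆ H95LBS.BF y R := by
    intro o ho
    rw [H95LBS.mem_BF, nm_sub_comm]
    exact (Finset.mem_filter.1 ho).2
  have h2 : (H95LBS.BF y R).card ≤ (2 * R + 1) ^ d := by
    unfold H95LBS.BF
    exact Finset.card_image_le.trans (card_Box R).le
  exact_mod_cast (Finset.card_le_card h1).trans h2

theorem La_cnt (P : Par d) (st : St d) (v : V d) (R : ℕ) (Q : Finset (V d)) :
    ∑ o ∈ Q, perc d P.p (EE P st v o R) ≤
      (((2 * R + 1) ^ d : ℕ) : ℝ≥0∞) *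
        ∑' B : Finset (V d), cl P.p (occ st.H) st.x B * cnt P st v B := by
  classical
  refine (Finset.sum_le_sum fun o _ => LaCnt_one P st v o R).trans ?_
  rw [← Summable.tsum_finsetSum (fun _ _ => ENNReal.summable), ← ENNReal.tsum_mul_left]
  refine ENNReal.tsum_le_tsum fun B => ?_
  rw [← Finset.mul_sum]
  have h1 : ∑ o ∈ Q, LaCnt_near P st v o R B ≤ (((2 * R + 1) ^ d : ℕ) : ℝ≥0∞) * cnt P st v B := by
    unfold LaCnt_near cnt
    rw [Finset.sum_comm, Finset.mul_sum]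
    refine Finset.sum_le_sum fun y _ => ?_
    rw [Finset.sum_comm, Finset.mul_sum]
    refine Finset.sum_le_sum fun s _ => ?_
    rw [← Finset.mul_sum, mul_comm]
    gcongr
    exact LaCnt_centres y R Q
  calc cl P.p (occ st.H) st.x B * ∑ o ∈ Q, LaCnt_near P st v o R B
      ≤ cl P.p (occ st.H) st.x B * ((((2 * R + 1) ^ d : ℕ) : ℝ≥0∞) * cnt P st v B) := by gcongr
    _ = _ := by ring

end CF
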