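import Pool.Agent.H70.CF.Law
import Pool.Agent.H70.CF.StepDef
import Pool.Agent.H70.CF.KerC
import Pool.Agent.H70.CF.Pack
import Pool.Agent.H95.LBS.Def

/-!
PROJECT CF (MP_0d9ad5_pr, note 2718, section 3), LEMMA A: the mean number of good extensions is at least
`c L^2`. Definitions. `S = occ H` is the history, `x` the position, `o` a centre, `R` the surgery radius.
-/

namespace CF

open H5DF H95LBD MeasureTheory
open scoped ENNReal

variable {d : ℕ}

noncomputable section

open Classical in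
/-- All edges with both ends in the ball `Bx o R` are closed. -/
def shut (o : V d) (R : ℕ) (ζ : Cfg d) : Cfg d := fun e => ζ e && !decide (e ∈ ins (Bx o R))

/-- Good outer cluster at `o`: the cluster `B` of `x` off `S` outside the ball is a good cluster, touches
the ball, does not enter it, and has a small potential at `o`. -/
def GE (P : Par d) (H : List (Ent d)) (x o : V d) (R : ℕ) : Set (Cfg d) :=
  {ζ | ∃ B : Finset (V d),
    cluster (cut ((occ H : Set (V d))ᶜ) (shut o R ζ)) x = (B : Set (V d)) ∧ gc P H x B ∧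
    (∃ b ∈ B, nm (b - o) ≤ R) ∧ (∀ w ∈ B, R ≤ nm (w - o)) ∧
    ∑ w ∈ B, ker (d - 2) P.t (o - w) ≤ P.v0 / 2}

/-- There is a good extension near `o`. -/
def EE (P : Par d) (st : St d) (v o : V d) (R : ℕ) : Set (Cfg d) :=
  {ζ | ∃ B : Finset (V d),
    cluster (cut ((occ st.H : Set (V d))ᶜ) ζ) st.x = (B : Set (V d)) ∧
    ∃ y ∈ B, nm (y - o) ≤ R ∧ ∃ s : Dir d, gx P st v B y s}

/-- `o` is far from the history. -/
def farH (P : Par d) (H : List (Ent d)) (R : ℕ) (o : V d) : Prop :=
  (∀ w ∈ occ H, R < nm (w - o)) ∧ ∑ w ∈ occ H, ker (d - 2) P.t (o - w) ≤ P.v0 / 2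

/-- The sum of `f` over the cluster of `x` off `S`. -/
def csum (S : Finset (V d)) (x : V d) (f : V d → ℝ≥0∞) (ζ : Cfg d) : ℝ≥0∞ :=
  ∑' w : V d, (cluster (cut ((S : Set (V d))ᶜ) ζ) x).indicator f w

/-- The upper bound for the probability that `x` is connected to `o` and to `w` off `S`. -/
def TO (p : ℝ) (S : Finset (V d)) (x o w : V d) : ℝ≥0∞ :=
  ∑' u : V d, off p S x u * (tau d p (o - u) * tau d p (w - u))

/-- The function of the error (e2). -/
def fR (P : Par d) (R : ℕ) (o w : V d) : ℝ≥0∞ :=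
  if R ≤ nm (w - o) then ker (d - 2) P.t (o - w) else 0

/-- The error event: `x` is connected to `o` and the sum of `f` over the cluster is large. -/
def Er (S : Finset (V d)) (x o : V d) (f : V d → ℝ≥0∞) (b : ℝ≥0∞) : Set (Cfg d) :=
  {ζ | o ∈ cluster (cut ((S : Set (V d))ᶜ) ζ) x ∧ b < csum S x f ζ}

/-- The centre of the target cell. -/
def ctr (P : Par d) (st : St d) (v : V d) : V d :=
  fun i => st.z i + (P.L : ℤ) * v i + ((P.L / 2 : ℕ) : ℤ)

/-- The concentric cube of radius `n`. -/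
def QQ (P : Par d) (st : St d) (v : V d) (n : ℕ) : Finset (V d) := H95LBS.BF (ctr P st v) n

end

lemma mem_QQ {P : Par d} {st : St d} {v : V d} {n : ℕ} {u : V d} :
    u ∈ QQ P st v n ↔ nm (u - ctr P st v) ≤ n := H95LBS.mem_BF

/-- the ball of radius `R` around a point of the cube of radius `n` lies in the target cell -/
lemma QQ_cell {P : Par d} {st : St d} {v : V d} {n R : ℕ} (h : n + R < P.L / 2) {o y : V d}
    (ho : o ∈ QQ P st v n) (hy : nm (y - o) ≤ R) : y ∈ cell P.L (st.z + (P.L : ℤ) • v) := by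
  rw [mem_QQ] at ho
  rw [mem_cell]
  intro i
  have h1 := natAbs_le_nm (o - ctr P st v) i
  have h2 := natAbs_le_nm (y - o) i
  simp only [ctr, Pi.sub_apply, Pi.add_apply, Pi.smul_apply, smul_eq_mul] at h1 h2 ⊢
  omega

lemma QQ_sub {P : Par d} {st : St d} {v : V d} {n : ℕ} (h : n < P.L / 2) :
    QQ P st v n ⊆ cell P.L (st.z + (P.L : ℤ) • v) := fun o ho =>
  QQ_cell (R := 0) (by omega) ho (by rw [sub_self, nm_zero])

lemma QQ_card {P : Par d} {st : St d} {v : V d} {n : ℕ} (h : n < P.L / 2) :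
    (QQ P st v n).card ≤ P.L ^ d := by
  have := Finset.card_le_card (QQ_sub (P := P) (st := st) (v := v) h)
  rwa [card_cell] at this

/-- `o ∈ QQ n`, `u ∉ QQ (n + r)`: the distance is at least `r`. -/
lemma QQ_dist {P : Par d} {st : St d} {v : V d} {n r : ℕ} {o u : V d} (ho : o ∈ QQ P st v n)
    (hu : u ∉ QQ P st v (n + r)) : r ≤ nm (o - u) := by
  rw [mem_QQ] at ho hu
  have := nm_tri u o (ctr P st v)
  rw [nm_sub_comm u o] at this
  omega

end CF
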