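import Pool.Agent.H12.CF.LaDef

/-!
PROJECT CF (MP_0d9ad5_pr, note 2718), LEMMA A, JOB CF-LaEr1: error (C1).
PROOF. `off ≤ tau` (`off_le_tau`), `tau ≤ A1 ker (d-2) (2t)`. `gro_ker`:
`gro t (w - x) ker(d-2)(2t)(u - x) ker(d-2)(2t)(w - u) ≤ ker(d-2)(t)(u - x) ker(d-2)(t)(w - u)`. Sum over `w`:
`ker_exp` (`d - (d-2) = 2`): `C / t^2 = C L^2 / κ^2`. Sum over `u`: `ker_conv` with `d-2, d-2`:
`C ker (d-4) t (o - x) ≤ C / (1+L)^(d-4)`. Sum over at most `L^d` points `o`. Total `C L^6`.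
-/

namespace CF

open H5DF H95LBD MeasureTheory
open scoped ENNReal

variable {d : ℕ}

lemma LaEr1_pt {P : Par d} {A1 : ℝ} (ht : 0 ≤ P.t) (hT : TauUp d P.p P.t A1)
    (S : Finset (V d)) (x o w u : V d) :
    gro P.t (w - x) * (off P.p S x u * (tau d P.p (o - u) * tau d P.p (w - u))) ≤
      ENNReal.ofReal A1 ^ 3 * (ker (d - 2) P.t (u - x) * ker (d - 2) P.t (o - u)) *
        ker (d - 2) P.t (w - u) := by
  have h1 : off P.p S x u ≤ ENNReal.ofReal A1 * ker (d - 2) (2 * P.t) (u - x) :=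
    (off_le_tau hT.h0 hT.h1 S x u).trans (hT.up _)
  have h2 : tau d P.p (o - u) ≤ ENNReal.ofReal A1 * ker (d - 2) P.t (o - u) :=
    (hT.up _).trans (mul_le_mul_right (ker_rate (d - 2) (by linarith) _) _)
  have h3 : tau d P.p (w - u) ≤ ENNReal.ofReal A1 * ker (d - 2) (2 * P.t) (w - u) := hT.up _
  calc gro P.t (w - x) * (off P.p S x u * (tau d P.p (o - u) * tau d P.p (w - u)))
      ≤ gro P.t (w - x) * ((ENNReal.ofReal A1 * ker (d - 2) (2 * P.t) (u - x)) *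
        ((ENNReal.ofReal A1 * ker (d - 2) P.t (o - u)) *
          (ENNReal.ofReal A1 * ker (d - 2) (2 * P.t) (w - u)))) := by
        gcongr
    _ = ENNReal.ofReal A1 ^ 3 * ker (d - 2) P.t (o - u) * (gro P.t (w - x) *
        (ker (d - 2) (2 * P.t) (u - x) * ker (d - 2) (2 * P.t) (w - u))) := by
        ring
    _ ≤ ENNReal.ofReal A1 ^ 3 * ker (d - 2) P.t (o - u) *
        (ker (d - 2) P.t (u - x) * ker (d - 2) P.t (w - u)) := by
        refine mul_le_mul_right ?_ _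
        exact gro_ker ht (d - 2) (d - 2) x w u
    _ = _ := by ring

lemma LaEr1_sum {P : Par d} {A1 C1 C2 : ℝ} (ht : 0 ≤ P.t) (hT : TauUp d P.p P.t A1)
    (h1 : ∑' v : V d, ker (d - 2) P.t v ≤ ENNReal.ofReal C1)
    (h2 : ∀ x y : V d, ∑' u : V d, ker (d - 2) P.t (u - x) * ker (d - 2) P.t (y - u) ≤
        ENNReal.ofReal C2 * ker (d - 4) P.t (y - x))
    (S : Finset (V d)) (x o : V d) :
    ∑' w : V d, gro P.t (w - x) * TO P.p S x o w ≤
      ENNReal.ofReal A1 ^ 3 * (ENNReal.ofReal C2 * ker (d - 4) P.t (o - x)) *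
        ENNReal.ofReal C1 := by
  have e1 : ∀ w : V d, gro P.t (w - x) * TO P.p S x o w ≤
      ∑' u : V d, ENNReal.ofReal A1 ^ 3 * (ker (d - 2) P.t (u - x) * ker (d - 2) P.t (o - u)) *
        ker (d - 2) P.t (w - u) := by
    intro w
    unfold TO
    rw [← ENNReal.tsum_mul_left]
    exact ENNReal.tsum_le_tsum fun u => LaEr1_pt ht hT S x o w u
  refine (ENNReal.tsum_le_tsum e1).trans ?_
  rw [ENNReal.tsum_comm]
  have e2 : ∀ u : V d, ∑' w : V d, ENNReal.ofReal A1 ^ 3 *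
      (ker (d - 2) P.t (u - x) * ker (d - 2) P.t (o - u)) * ker (d - 2) P.t (w - u) ≤
      ENNReal.ofReal A1 ^ 3 * (ker (d - 2) P.t (u - x) * ker (d - 2) P.t (o - u)) *
        ENNReal.ofReal C1 := by
    intro u
    rw [ENNReal.tsum_mul_left]
    refine mul_le_mul_right ?_ _
    have := (Equiv.subRight u).tsum_eq (fun v : V d => ker (d - 2) P.t v)
    simp only [Equiv.subRight_apply] at this
    rw [this]
    exact h1
  refine (ENNReal.tsum_le_tsum e2).trans ?_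
  rw [ENNReal.tsum_mul_right, ENNReal.tsum_mul_left]
  gcongr
  exact h2 x o

theorem La_er1 (hd : 9 ≤ d) (κ A1 : ℝ) (hκ : 0 < κ) (hA : 0 < A1) : ∃ C : ℝ, 0 < C ∧
    ∀ P : Par d, 1 ≤ P.L → κ ≤ P.L → P.t = κ / P.L → TauUp d P.p P.t A1 →
      ∀ (S : Finset (V d)) (x : V d) (Q : Finset (V d)), Q.card ≤ P.L ^ d →
      (∀ o ∈ Q, P.L ≤ nm (o - x)) →
      ∑ o ∈ Q, ∑' w : V d, gro P.t (w - x) * TO P.p S x o w ≤
        ENNReal.ofReal (C * (P.L : ℝ) ^ 6) := by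
  obtain ⟨C1, hC1, h1⟩ := ker_exp (d := d) (d - 2) (by omega)
  obtain ⟨C2, hC2, h2⟩ := ker_conv (d := d) (d - 2) (d - 2) (by omega) (by omega) (by omega)
  refine ⟨A1 ^ 3 * C2 * C1 / κ ^ 2, by positivity, fun P hL hκL ht hT S x Q hQ hx => ?_⟩
  have hL0 : (1 : ℝ) ≤ P.L := by exact_mod_cast hL
  have hLp : (0 : ℝ) < P.L := by linarith
  have ht0 : 0 < P.t := by
    rw [ht]
    positivity
  have ht1 : P.t ≤ 1 := by
    rw [ht, div_le_one hLp]
    exact hκL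
  have k1 := h1 P.t ht0 ht1
  rw [show d - (d - 2) = 2 by omega] at k1
  have k2 := h2 P.t ht0.le
  rw [show d - 2 + (d - 2) - d = d - 4 by omega] at k2
  have k3 : ∀ o ∈ Q, ∑' w : V d, gro P.t (w - x) * TO P.p S x o w ≤
      ENNReal.ofReal (A1 ^ 3 * (C2 * (1 / (P.L : ℝ) ^ (d - 4))) * (C1 / P.t ^ 2)) := by
    intro o ho
    refine (LaEr1_sum ht0.le hT k1 k2 S x o).trans ?_
    have k4 : ker (d - 4) P.t (o - x) ≤ ENNReal.ofReal (1 / (P.L : ℝ) ^ (d - 4)) := by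
      have k5 := ker_far (hx o ho) 0 (d - 4) P.t
      rw [zero_add] at k5
      refine k5.trans ?_
      calc ENNReal.ofReal (1 / (1 + (P.L : ℝ)) ^ (d - 4)) * ker 0 P.t (o - x)
          ≤ ENNReal.ofReal (1 / (1 + (P.L : ℝ)) ^ (d - 4)) * 1 :=
            mul_le_mul_right (ker_le_one 0 ht0.le _) _
        _ = ENNReal.ofReal (1 / (1 + (P.L : ℝ)) ^ (d - 4)) := mul_one _
        _ ≤ _ := by
            apply ENNReal.ofReal_le_ofReal
            refine one_div_le_one_div_of_le (by positivity) ?_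
            exact pow_le_pow_left₀ hLp.le (by linarith) _
    rw [ENNReal.ofReal_mul (by positivity), ENNReal.ofReal_mul (by positivity),
      ENNReal.ofReal_mul hC2.le, ENNReal.ofReal_pow hA.le]
    gcongr
  refine (Finset.sum_le_sum k3).trans ?_
  rw [Finset.sum_const, nsmul_eq_mul]
  have k6 : (Q.card : ℝ≥0∞) ≤ ENNReal.ofReal ((P.L : ℝ) ^ d) := by
    rw [← Nat.cast_pow, ENNReal.ofReal_natCast]
    exact_mod_cast hQ
  refine (mul_le_mul_left k6 _).trans ?_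
  rw [← ENNReal.ofReal_mul (by positivity)]
  apply ENNReal.ofReal_le_ofReal
  apply le_of_eq
  rw [ht, show (P.L : ℝ) ^ d = (P.L : ℝ) ^ (d - 4) * (P.L : ℝ) ^ 4 by
    rw [← pow_add]
    congr 1
    omega]
  have h3 : (P.L : ℝ) ^ (d - 4) ≠ 0 := by positivity
  field_simp

end CF
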