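import Pool.Agent.H12.CF.LaDef

/-!
PROJECT CF (MP_0d9ad5_pr, note 2718), LEMMA A, JOB CF-LaEr2: error (e2).
PROOF. `fR P R o w ≤ 1/(1+R) ker (d-3) t (o - w)` (`ker_far` with `q = d-3`, `q' = 1`). Exchange the sums over
`w` and `u`; `∑' w, ker (d-3) t (o - w) tau (w - u) ≤ C ker (d-5) t (o - u)` (`ker_conv` with `d-3, d-2`,
`ker_comm`); times `tau (o - u) ≤ A1 ker (d-2) t (o - u)`: `C ker (2d-7) t (o - u)` (`ker_mul`, `ker_rate`).
So the left side is `≤ C/(1+R) ∑' u, off x u ∑_{o ∈ Q} ker (2d-7) t (o - u)`.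
`u ∈ Q'`: `∑_{o} ker (2d-7) 0 (o - u) ≤ C` (`2d - 7 > d`: `ker_tail` with `n = 0` and the term `o = u`).
`u ∉ Q'`: `ker (2d-7) t ≤ 1/(1+r)^(d-5) ker (d-2) t ≤ 1/(1+r)^4 ker (d-2) t`,
`∑' u, off x u ker (d-2) t (o - u) ≤ C ker (d-4) t (o - x) ≤ C / (1+L)^(d-4)` (`off_le_tau`, `ker_conv`), and at
most `L^d` points `o`: `C L^4 / (1+r)^4`.
-/

namespace CF

open H5DF H95LBD MeasureTheory
open scoped ENNReal

variable {d : ℕ}

lemma LaEr2_all (hd : 1 ≤ d) (q : ℕ) (hq : d < q) : ∃ C : ℝ, 0 < C ∧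
    ∑' v : V d, ker q 0 v ≤ ENNReal.ofReal C := by
  classical
  obtain ⟨C, hC, h⟩ := ker_tail (d := d) hd q hq
  refine ⟨C + 1, by positivity, ?_⟩
  have h0 := h 0
  simp only [Nat.cast_zero, add_zero, one_pow, div_one] at h0
  have e1 : ∀ v : V d, ker q 0 v ≤ (if 0 < nm v then ker q 0 v else 0) + if v = 0 then 1 else 0 := by
    intro v
    by_cases hv : 0 < nm v
    · rw [if_pos hv]
      exact le_self_add
    · have hv0 : v = 0 := by
        have : nm v = 0 := by omega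
        have h2 := nm_le.1 this.le
        funext i
        have := h2 i
        simp only [Pi.zero_apply]
        omega
      rw [if_neg hv, if_pos hv0, zero_add]
      exact ker_le_one q le_rfl v
  refine (ENNReal.tsum_le_tsum e1).trans ?_
  rw [ENNReal.tsum_add, tsum_ite_eq, ENNReal.ofReal_add hC.le zero_le_one, ENNReal.ofReal_one]
  exact add_le_add_left h0 1

lemma LaEr2_sum {q : ℕ} {C t : ℝ} (ht : 0 ≤ t) (h : ∑' v : V d, ker q 0 v ≤ ENNReal.ofReal C)
    (Q : Finset (V d)) (u : V d) : ∑ o ∈ Q, ker q t (o - u) ≤ ENNReal.ofReal C := by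
  calc ∑ o ∈ Q, ker q t (o - u) ≤ ∑' o : V d, ker q t (o - u) := ENNReal.sum_le_tsum Q
    _ ≤ ∑' o : V d, ker q 0 (o - u) := ENNReal.tsum_le_tsum fun o => ker_rate q ht _
    _ = ∑' v : V d, ker q 0 v := by
        have := (Equiv.subRight u).tsum_eq (fun v : V d => ker q 0 v)
        simpa only [Equiv.subRight_apply] using this
    _ ≤ _ := h

lemma LaEr2_fR (hd : 9 ≤ d) (P : Par d) (R : ℕ) (o w : V d) :
    fR P R o w ≤ ENNReal.ofReal (1 / (1 + (R : ℝ))) * ker (d - 3) P.t (o - w) := by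
  unfold fR
  split_ifs with h
  · rw [nm_sub_comm] at h
    have h1 := ker_far h (d - 3) 1 P.t
    rw [show d - 3 + 1 = d - 2 by omega, pow_one] at h1
    exact h1
  · exact zero_le

/-- The kernel bound for one centre. -/
lemma LaEr2_one (hd : 9 ≤ d) {P : Par d} {A1 C2 : ℝ} (ht : 0 ≤ P.t) (hT : TauUp d P.p P.t A1)
    (h2 : ∀ x y : V d, ∑' u : V d, ker (d - 2) P.t (u - x) * ker (d - 3) P.t (y - u) ≤
        ENNReal.ofReal C2 * ker (d - 5) P.t (y - x))
    (S : Finset (V d)) (x o : V d) (R : ℕ) :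
    ∑' w : V d, fR P R o w * TO P.p S x o w ≤
      ENNReal.ofReal (1 / (1 + (R : ℝ))) * (ENNReal.ofReal A1 ^ 2 * ENNReal.ofReal C2) *
        ∑' u : V d, off P.p S x u * ker (2 * d - 7) P.t (o - u) := by
  have e1 : ∀ w : V d, fR P R o w * TO P.p S x o w ≤
      ∑' u : V d, (ENNReal.ofReal (1 / (1 + (R : ℝ))) * ENNReal.ofReal A1 * off P.p S x u *
        tau d P.p (o - u)) * (ker (d - 2) P.t (w - u) * ker (d - 3) P.t (o - w)) := by
    intro w
    unfold TO
    rw [← ENNReal.tsum_mul_left]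
    refine ENNReal.tsum_le_tsum fun u => ?_
    have h3 : tau d P.p (w - u) ≤ ENNReal.ofReal A1 * ker (d - 2) P.t (w - u) :=
      (hT.up _).trans (mul_le_mul_right (ker_rate (d - 2) (by linarith) _) _)
    calc fR P R o w * (off P.p S x u * (tau d P.p (o - u) * tau d P.p (w - u)))
        ≤ (ENNReal.ofReal (1 / (1 + (R : ℝ))) * ker (d - 3) P.t (o - w)) * (off P.p S x u *
          (tau d P.p (o - u) * (ENNReal.ofReal A1 * ker (d - 2) P.t (w - u)))) := by
          gcongr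
          exact LaEr2_fR hd P R o w
      _ = _ := by ring
  refine (ENNReal.tsum_le_tsum e1).trans ?_
  rw [ENNReal.tsum_comm]
  have e2 : ∀ u : V d, ∑' w : V d, (ENNReal.ofReal (1 / (1 + (R : ℝ))) * ENNReal.ofReal A1 *
      off P.p S x u * tau d P.p (o - u)) * (ker (d - 2) P.t (w - u) * ker (d - 3) P.t (o - w)) ≤
      ENNReal.ofReal (1 / (1 + (R : ℝ))) * (ENNReal.ofReal A1 ^ 2 * ENNReal.ofReal C2) *
        (off P.p S x u * ker (2 * d - 7) P.t (o - u)) := by
    intro u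
    rw [ENNReal.tsum_mul_left]
    have h3 : tau d P.p (o - u) ≤ ENNReal.ofReal A1 * ker (d - 2) P.t (o - u) :=
      (hT.up _).trans (mul_le_mul_right (ker_rate (d - 2) (by linarith) _) _)
    have h4 : ker (d - 2) P.t (o - u) * ker (d - 5) P.t (o - u) ≤
        ker (2 * d - 7) P.t (o - u) := by
      rw [ker_mul, show d - 2 + (d - 5) = 2 * d - 7 by omega]
      exact ker_rate _ (by linarith) _
    calc (ENNReal.ofReal (1 / (1 + (R : ℝ))) * ENNReal.ofReal A1 * off P.p S x u *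
          tau d P.p (o - u)) * ∑' w : V d, ker (d - 2) P.t (w - u) * ker (d - 3) P.t (o - w)
        ≤ (ENNReal.ofReal (1 / (1 + (R : ℝ))) * ENNReal.ofReal A1 * off P.p S x u *
          (ENNReal.ofReal A1 * ker (d - 2) P.t (o - u))) *
            (ENNReal.ofReal C2 * ker (d - 5) P.t (o - u)) := by
          gcongr
          exact h2 u o
      _ = ENNReal.ofReal (1 / (1 + (R : ℝ))) * (ENNReal.ofReal A1 ^ 2 * ENNReal.ofReal C2) *
          (off P.p S x u * (ker (d - 2) P.t (o - u) * ker (d - 5) P.t (o - u))) := by ring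
      _ ≤ _ := by gcongr
  refine (ENNReal.tsum_le_tsum e2).trans ?_
  rw [ENNReal.tsum_mul_left]

/-- The far part for one centre. -/
lemma LaEr2_far (hd : 9 ≤ d) {P : Par d} {A1 C1 : ℝ} (hA : 0 < A1) (hC1 : 0 < C1) (hL : 1 ≤ P.L)
    (ht : 0 ≤ P.t) (hT : TauUp d P.p P.t A1)
    (h1 : ∀ x y : V d, ∑' u : V d, ker (d - 2) P.t (u - x) * ker (d - 2) P.t (y - u) ≤
        ENNReal.ofReal C1 * ker (d - 4) P.t (y - x))
    (S Q' : Finset (V d)) (x o : V d) (r : ℕ) (hx : P.L ≤ nm (o - x))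
    (hr : ∀ u, u ∉ Q' → r ≤ nm (o - u)) :
    ∑' u : V d, off P.p S x u * ker (2 * d - 7) P.t (o - u) ≤
      ∑ u ∈ Q', off P.p S x u * ker (2 * d - 7) P.t (o - u) +
        ENNReal.ofReal (A1 * C1 / (P.L : ℝ) ^ (d - 4) / (1 + (r : ℝ)) ^ 4) := by
  classical
  have e1 : ∀ u : V d, off P.p S x u * ker (2 * d - 7) P.t (o - u) ≤
      (if u ∈ Q' then off P.p S x u * ker (2 * d - 7) P.t (o - u) else 0) +
        ENNReal.ofReal (1 / (1 + (r : ℝ)) ^ 4) * ENNReal.ofReal A1 *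
          (ker (d - 2) P.t (u - x) * ker (d - 2) P.t (o - u)) := by
    intro u
    by_cases hu : u ∈ Q'
    · rw [if_pos hu]
      exact le_self_add
    · rw [if_neg hu, zero_add]
      have h2 : off P.p S x u ≤ ENNReal.ofReal A1 * ker (d - 2) P.t (u - x) :=
        ((off_le_tau hT.h0 hT.h1 S x u).trans (hT.up _)).trans
          (mul_le_mul_right (ker_rate (d - 2) (by linarith) _) _)
      have h3 : ker (2 * d - 7) P.t (o - u) ≤
          ENNReal.ofReal (1 / (1 + (r : ℝ)) ^ 4) * ker (d - 2) P.t (o - u) := by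
        have h4 := ker_far (hr u hu) (d - 2) 4 P.t
        exact (ker_pow (by omega : d - 2 + 4 ≤ 2 * d - 7) _ _).trans h4
      calc off P.p S x u * ker (2 * d - 7) P.t (o - u)
          ≤ (ENNReal.ofReal A1 * ker (d - 2) P.t (u - x)) *
            (ENNReal.ofReal (1 / (1 + (r : ℝ)) ^ 4) * ker (d - 2) P.t (o - u)) :=
            mul_le_mul' h2 h3
        _ = _ := by ring
  refine (ENNReal.tsum_le_tsum e1).trans ?_
  rw [ENNReal.tsum_add, ENNReal.tsum_mul_left]
  have hL0 : (0 : ℝ) < P.L := by exact_mod_cast hL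
  have k4 : ker (d - 4) P.t (o - x) ≤ ENNReal.ofReal (1 / (P.L : ℝ) ^ (d - 4)) := by
    have k5 := ker_far hx 0 (d - 4) P.t
    rw [zero_add] at k5
    refine k5.trans ?_
    calc ENNReal.ofReal (1 / (1 + (P.L : ℝ)) ^ (d - 4)) * ker 0 P.t (o - x)
        ≤ ENNReal.ofReal (1 / (1 + (P.L : ℝ)) ^ (d - 4)) * 1 :=
          mul_le_mul_right (ker_le_one 0 ht _) _
      _ = ENNReal.ofReal (1 / (1 + (P.L : ℝ)) ^ (d - 4)) := mul_one _
      _ ≤ _ := by
          apply ENNReal.ofReal_le_ofReal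
          refine one_div_le_one_div_of_le (by positivity) ?_
          exact pow_le_pow_left₀ hL0.le (by linarith) _
  have e2 : ∑' u : V d, (if u ∈ Q' then off P.p S x u * ker (2 * d - 7) P.t (o - u) else 0) =
      ∑ u ∈ Q', off P.p S x u * ker (2 * d - 7) P.t (o - u) := by
    rw [tsum_eq_sum (s := Q') (fun u hu => if_neg hu)]
    exact Finset.sum_congr rfl fun u hu => if_pos hu
  rw [e2]
  refine add_le_add_right ?_ _
  calc ENNReal.ofReal (1 / (1 + (r : ℝ)) ^ 4) * ENNReal.ofReal A1 *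
        ∑' u : V d, ker (d - 2) P.t (u - x) * ker (d - 2) P.t (o - u)
      ≤ ENNReal.ofReal (1 / (1 + (r : ℝ)) ^ 4) * ENNReal.ofReal A1 *
        (ENNReal.ofReal C1 * ENNReal.ofReal (1 / (P.L : ℝ) ^ (d - 4))) := by
        refine mul_le_mul_right ((h1 x o).trans ?_) _
        exact mul_le_mul_right k4 _
    _ = _ := by
        rw [← ENNReal.ofReal_mul hC1.le, ← ENNReal.ofReal_mul (by positivity),
          ← ENNReal.ofReal_mul (by positivity)]
        congr 1
        field_simp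

theorem La_er2 (hd : 9 ≤ d) (κ A1 : ℝ) (hκ : 0 < κ) (hA : 0 < A1) : ∃ C : ℝ, 0 < C ∧
    ∀ P : Par d, 1 ≤ P.L → P.t = κ / P.L → TauUp d P.p P.t A1 →
      ∀ (S : Finset (V d)) (x : V d) (Q Q' : Finset (V d)) (R r : ℕ), Q.card ≤ P.L ^ d →
      (∀ o ∈ Q, P.L ≤ nm (o - x)) → (∀ o ∈ Q, ∀ u, u ∉ Q' → r ≤ nm (o - u)) →
      ∑ o ∈ Q, ∑' w : V d, fR P R o w * TO P.p S x o w ≤
        ENNReal.ofReal (C / (1 + (R : ℝ))) * (∑ u ∈ Q', off P.p S x u +
          ENNReal.ofReal ((P.L : ℝ) ^ 4 / (1 + (r : ℝ)) ^ 4)) := by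
  obtain ⟨C0, hC0, h0⟩ := LaEr2_all (d := d) (by omega) (2 * d - 7) (by omega)
  obtain ⟨C1, hC1, h1⟩ := ker_conv (d := d) (d - 2) (d - 2) (by omega) (by omega) (by omega)
  obtain ⟨C2, hC2, h2⟩ := ker_conv (d := d) (d - 2) (d - 3) (by omega) (by omega) (by omega)
  refine ⟨A1 ^ 2 * C2 * (C0 + A1 * C1), by positivity, fun P hL ht hT S x Q Q' R r hQ hx hr => ?_⟩
  have hL0 : (0 : ℝ) < P.L := by exact_mod_cast hL
  have ht0 : 0 ≤ P.t := by
    rw [ht]
    positivity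
  have k1 := h1 P.t ht0
  rw [show d - 2 + (d - 2) - d = d - 4 by omega] at k1
  have k2 := h2 P.t ht0
  rw [show d - 2 + (d - 3) - d = d - 5 by omega] at k2
  have k3 : ∑ o ∈ Q, ∑' u : V d, off P.p S x u * ker (2 * d - 7) P.t (o - u) ≤
      ENNReal.ofReal (C0 + A1 * C1) * (∑ u ∈ Q', off P.p S x u +
          ENNReal.ofReal ((P.L : ℝ) ^ 4 / (1 + (r : ℝ)) ^ 4)) := by
    refine (Finset.sum_le_sum fun o ho => LaEr2_far hd hA hC1 hL ht0 hT k1 S Q' x o r (hx o ho)
      (hr o ho)).trans ?_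
    rw [Finset.sum_add_distrib, Finset.sum_comm, Finset.sum_const, nsmul_eq_mul, mul_add]
    refine add_le_add ?_ ?_
    · rw [Finset.mul_sum]
      refine Finset.sum_le_sum fun u _ => ?_
      rw [← Finset.mul_sum, mul_comm]
      refine mul_le_mul_left ((LaEr2_sum ht0 h0 Q u).trans ?_) _
      exact ENNReal.ofReal_le_ofReal (by nlinarith [mul_pos hA hC1])
    · have k6 : (Q.card : ℝ≥0∞) ≤ ENNReal.ofReal ((P.L : ℝ) ^ d) := by
        rw [← Nat.cast_pow, ENNReal.ofReal_natCast]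
        exact_mod_cast hQ
      refine (mul_le_mul_left k6 _).trans ?_
      rw [← ENNReal.ofReal_mul (by positivity), ← ENNReal.ofReal_mul (by positivity)]
      apply ENNReal.ofReal_le_ofReal
      have e : (P.L : ℝ) ^ d = (P.L : ℝ) ^ (d - 4) * (P.L : ℝ) ^ 4 := by
        rw [← pow_add]
        congr 1
        omega
      have e3 : (P.L : ℝ) ^ d * (A1 * C1 / (P.L : ℝ) ^ (d - 4) / (1 + (r : ℝ)) ^ 4) =
          A1 * C1 * ((P.L : ℝ) ^ 4 / (1 + (r : ℝ)) ^ 4) := by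
        rw [e]
        field_simp
      rw [e3]
      exact mul_le_mul_of_nonneg_right (by linarith) (by positivity)
  refine (Finset.sum_le_sum fun o _ => LaEr2_one hd ht0 hT k2 S x o R).trans ?_
  rw [← Finset.mul_sum]
  refine (mul_le_mul_right k3 _).trans (le_of_eq ?_)
  rw [← mul_assoc]
  congr 1
  rw [← ENNReal.ofReal_pow hA.le, ← ENNReal.ofReal_mul (by positivity),
    ← ENNReal.ofReal_mul (by positivity), ← ENNReal.ofReal_mul (by positivity)]
  congr 1
  ring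

end CF
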