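import Pool.Agent.H12.CF.LaDef

/-!
PROJECT CF (MP_0d9ad5_pr, note 2718), LEMMA A, JOB CF-LaErK: errors (C3) and (C4).
PROOF. (gen) for every `f`: `∑_{o ∈ Q} ∑' w, f w TO ≤ C L^2 ∑' w, f w ker (d-4) t (w - x)`: `off ≤ tau`,
`∑_{o ∈ Q} tau (o - u) ≤ A1 ∑ ker (d-2) 0 (o - u) ≤ C L^2` (`pack_card`), then
`∑' u, ker (d-2) t (u - x) ker (d-2) t (w - u) ≤ C ker (d-4) t (w - x)` (`ker_conv`).
(C3) `∑' w, FK P (d-4) t H w * ker (d-4) t (w - x) ≤ C FK P (d-8) t H x` by induction on `H` (`ker_conv` with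
`d-4, d-4`, `d ≥ 9`). (C4) `∑' w, F4 P H w * ker (d-4) t (w - x) ≤ C FK P (d-4) t H x` by induction on `H`:
`∑' w, [w + step s ∈ A] ker (d-4) t (w - x) = ∑_{w' ∈ A} ker (d-4) t (w' - step s - x)` and `ker_move` with
`r = 1` (`t ≤ κ`).
-/

namespace CF

open H5DF H95LBD MeasureTheory
open scoped ENNReal

variable {d : ℕ}

lemma LaErK_t {κ : ℝ} (hκ : 0 < κ) {L : ℕ} (hL : 1 ≤ L) : 0 ≤ κ / (L : ℝ) ∧ κ / (L : ℝ) ≤ κ := by
  have h1 : (1 : ℝ) ≤ L := by exact_mod_cast hL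
  exact ⟨by positivity, div_le_self hκ.le h1⟩

lemma LaErK_up {A1 : ℝ} {P : Par d} (h0 : 0 ≤ P.t) (hT : TauUp d P.p P.t A1) (z : V d) :
    tau d P.p z ≤ ENNReal.ofReal A1 * ker (d - 2) P.t z :=
  (hT.up z).trans (mul_le_mul' le_rfl (ker_rate _ (by linarith) _))

theorem La_erG (hd : 9 ≤ d) (κ A1 : ℝ) (hκ : 0 < κ) (hA : 0 < A1) : ∃ C : ℝ, 0 < C ∧
    ∀ P : Par d, 1 ≤ P.L → P.t = κ / P.L → TauUp d P.p P.t A1 →
      ∀ (S : Finset (V d)) (x : V d) (Q : Finset (V d)), Q.card ≤ P.L ^ d →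
      ∀ f : V d → ℝ≥0∞, ∑ o ∈ Q, ∑' w : V d, f w * TO P.p S x o w ≤
        ENNReal.ofReal (C * (P.L : ℝ) ^ 2) * ∑' w : V d, f w * ker (d - 4) P.t (w - x) := by
  obtain ⟨C1, hC1, h1⟩ := pack_card (d := d) (d - 2) (by omega)
  obtain ⟨C3, hC3, h3⟩ := ker_conv (d := d) (d - 2) (d - 2) (by omega) (by omega) (by omega)
  refine ⟨A1 * C1 * (A1 ^ 2 * C3), by positivity, fun P hL ht hT S x Q hQ f => ?_⟩
  obtain ⟨h0, -⟩ := LaErK_t hκ hL
  rw [← ht] at h0
  have hq : ∀ u : V d, ∑ o ∈ Q, tau d P.p (o - u) ≤ ENNReal.ofReal (A1 * C1 * (P.L : ℝ) ^ 2) := by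
    intro u
    calc ∑ o ∈ Q, tau d P.p (o - u) ≤ ∑ o ∈ Q, ENNReal.ofReal A1 * ker (d - 2) 0 (o - u) := by
          refine Finset.sum_le_sum fun o _ => (hT.up _).trans (mul_le_mul' le_rfl ?_)
          exact ker_rate _ (by linarith) _
      _ = ENNReal.ofReal A1 * ∑ o ∈ Q, ker (d - 2) 0 (o - u) := by rw [Finset.mul_sum]
      _ ≤ ENNReal.ofReal A1 * ENNReal.ofReal (C1 * (P.L : ℝ) ^ (d - (d - 2))) :=
          mul_le_mul' le_rfl (h1 Q u P.L hL hQ)
      _ = ENNReal.ofReal (A1 * C1 * (P.L : ℝ) ^ 2) := by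
          rw [← ENNReal.ofReal_mul hA.le, show d - (d - 2) = 2 by omega]
          congr 1
          ring
  have hw : ∀ w : V d, ∑' u : V d, off P.p S x u * tau d P.p (w - u) ≤
      ENNReal.ofReal (A1 ^ 2 * C3) * ker (d - 4) P.t (w - x) := by
    intro w
    calc ∑' u : V d, off P.p S x u * tau d P.p (w - u)
        ≤ ∑' u : V d, ENNReal.ofReal (A1 ^ 2) *
            (ker (d - 2) P.t (u - x) * ker (d - 2) P.t (w - u)) := by
          refine ENNReal.tsum_le_tsum fun u => ?_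
          refine (mul_le_mul' ((off_le_tau hT.h0 hT.h1 S x u).trans (LaErK_up h0 hT _))
            (LaErK_up h0 hT _)).trans (le_of_eq ?_)
          rw [ENNReal.ofReal_pow hA.le]
          ring
      _ = ENNReal.ofReal (A1 ^ 2) *
            ∑' u : V d, ker (d - 2) P.t (u - x) * ker (d - 2) P.t (w - u) := ENNReal.tsum_mul_left
      _ ≤ ENNReal.ofReal (A1 ^ 2) * (ENNReal.ofReal C3 * ker (d - 4) P.t (w - x)) := by
          refine mul_le_mul' le_rfl ?_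
          have h4 := h3 P.t h0 x w
          rwa [show d - 2 + (d - 2) - d = d - 4 by omega] at h4
      _ = ENNReal.ofReal (A1 ^ 2 * C3) * ker (d - 4) P.t (w - x) := by
          rw [ENNReal.ofReal_mul (p := A1 ^ 2) (by positivity), mul_assoc]
  calc ∑ o ∈ Q, ∑' w : V d, f w * TO P.p S x o w
      = ∑' w : V d, ∑ o ∈ Q, f w * TO P.p S x o w :=
        (Summable.tsum_finsetSum fun _ _ => ENNReal.summable).symm
    _ ≤ ∑' w : V d, ENNReal.ofReal (A1 * C1 * (A1 ^ 2 * C3) * (P.L : ℝ) ^ 2) *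
          (f w * ker (d - 4) P.t (w - x)) := by
        refine ENNReal.tsum_le_tsum fun w => ?_
        rw [← Finset.mul_sum]
        have e1 : ∑ o ∈ Q, TO P.p S x o w =
            ∑' u : V d, (off P.p S x u * tau d P.p (w - u)) * ∑ o ∈ Q, tau d P.p (o - u) := by
          unfold TO
          rw [← Summable.tsum_finsetSum fun _ _ => ENNReal.summable]
          refine tsum_congr fun u => ?_
          rw [Finset.mul_sum]
          refine Finset.sum_congr rfl fun o _ => ?_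
          ring
        have e2 : ∑ o ∈ Q, TO P.p S x o w ≤
            (ENNReal.ofReal (A1 ^ 2 * C3) * ker (d - 4) P.t (w - x)) *
              ENNReal.ofReal (A1 * C1 * (P.L : ℝ) ^ 2) := by
          rw [e1]
          refine (ENNReal.tsum_le_tsum fun u => mul_le_mul' le_rfl (hq u)).trans ?_
          rw [ENNReal.tsum_mul_right]
          exact mul_le_mul' (hw w) le_rfl
        refine (mul_le_mul' le_rfl e2).trans (le_of_eq ?_)
        have e3 : A1 * C1 * (A1 ^ 2 * C3) * (P.L : ℝ) ^ 2 =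
            (A1 ^ 2 * C3) * (A1 * C1 * (P.L : ℝ) ^ 2) := by ring
        rw [e3, ENNReal.ofReal_mul (p := A1 ^ 2 * C3) (by positivity)]
        ring
    _ = ENNReal.ofReal (A1 * C1 * (A1 ^ 2 * C3) * (P.L : ℝ) ^ 2) *
          ∑' w : V d, f w * ker (d - 4) P.t (w - x) := ENNReal.tsum_mul_left

lemma LaErK_FK (hd : 9 ≤ d) : ∃ C : ℝ, 0 < C ∧ ∀ P : Par d, 0 ≤ P.t → ∀ (x : V d)
    (H : List (Ent d)), ∑' w : V d, FK P (d - 4) P.t H w * ker (d - 4) P.t (w - x) ≤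
      ENNReal.ofReal C * FK P (d - 8) P.t H x := by
  obtain ⟨C3, hC3, h3⟩ := ker_conv (d := d) (d - 4) (d - 4) (by omega) (by omega) (by omega)
  refine ⟨C3, hC3, fun P h0 x H => ?_⟩
  induction H with
  | nil => simp [FK]
  | cons e H ih =>
    have e1 : ∀ w : V d, FK P (d - 4) P.t (e :: H) w * ker (d - 4) P.t (w - x) =
        P.g * ((∑ w' ∈ e.A, ker (d - 4) P.t (w - w') * ker (d - 4) P.t (x - w)) +
          FK P (d - 4) P.t H w * ker (d - 4) P.t (w - x)) := by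
      intro w
      rw [FK, mul_assoc, add_mul, Finset.sum_mul, ker_comm (d - 4) P.t x w]
    rw [tsum_congr e1, ENNReal.tsum_mul_left, ENNReal.tsum_add,
      Summable.tsum_finsetSum fun _ _ => ENNReal.summable]
    have e2 : ∑ w' ∈ e.A, ∑' w : V d, ker (d - 4) P.t (w - w') * ker (d - 4) P.t (x - w) ≤
        ENNReal.ofReal C3 * ∑ w' ∈ e.A, ker (d - 8) P.t (x - w') := by
      rw [Finset.mul_sum]
      refine Finset.sum_le_sum fun w' _ => ?_
      have h4 := h3 P.t h0 w' x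
      rwa [show d - 4 + (d - 4) - d = d - 8 by omega] at h4
    refine (mul_le_mul' le_rfl (add_le_add e2 ih)).trans (le_of_eq ?_)
    rw [FK]
    ring

theorem La_er3 (hd : 9 ≤ d) (κ A1 : ℝ) (hκ : 0 < κ) (hA : 0 < A1) : ∃ C : ℝ, 0 < C ∧
    ∀ P : Par d, 1 ≤ P.L → P.t = κ / P.L → TauUp d P.p P.t A1 →
      ∀ (S : Finset (V d)) (x : V d) (Q : Finset (V d)), Q.card ≤ P.L ^ d →
      ∀ H : List (Ent d), ∑ o ∈ Q, ∑' w : V d, FK P (d - 4) P.t H w * TO P.p S x o w ≤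
        ENNReal.ofReal (C * (P.L : ℝ) ^ 2) * FK P (d - 8) P.t H x := by
  obtain ⟨C1, hC1, h1⟩ := La_erG (d := d) hd κ A1 hκ hA
  obtain ⟨C2, hC2, h2⟩ := LaErK_FK (d := d) hd
  refine ⟨C1 * C2, by positivity, fun P hL ht hT S x Q hQ H => ?_⟩
  obtain ⟨h0, -⟩ := LaErK_t hκ hL
  rw [← ht] at h0
  refine (h1 P hL ht hT S x Q hQ _).trans ((mul_le_mul' le_rfl (h2 P h0 x H)).trans (le_of_eq ?_))
  rw [← mul_assoc, ← ENNReal.ofReal_mul (by positivity)]
  congr 2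
  ring

lemma LaErK_sh {κ : ℝ} {P : Par d} (h0 : 0 ≤ P.t) (h1 : P.t ≤ κ) (A : Finset (V d)) (x : V d)
    (s : Dir d) :
    ∑' w : V d, (if w + step s ∈ A then (1 : ℝ≥0∞) else 0) * ker (d - 4) P.t (w - x) ≤
      ENNReal.ofReal (Real.exp κ * 2 ^ (d - 4)) * ∑ w' ∈ A, ker (d - 4) P.t (x - w') := by
  have e1 := (Equiv.addRight (step s)).tsum_eq (fun w' : V d =>
    (if w' ∈ A then (1 : ℝ≥0∞) else 0) * ker (d - 4) P.t (w' - step s - x))
  simp only [Equiv.coe_addRight, add_sub_cancel_right] at e1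
  refine e1.le.trans ?_
  rw [tsum_eq_sum (s := A), Finset.mul_sum]
  · refine Finset.sum_le_sum fun w' hw' => ?_
    rw [if_pos hw', one_mul, ker_comm (d - 4) P.t x w']
    have e2 : nm (w' - step s - x - (w' - x)) ≤ 1 := by
      have e3 : w' - step s - x - (w' - x) = -step s := by abel
      rw [e3, nm_neg, nm_step]
    refine (ker_move h0 (d - 4) 1 e2).trans (mul_le_mul' (ENNReal.ofReal_le_ofReal ?_) le_rfl)
    have h3 : Real.exp (P.t * ((1 : ℕ) : ℝ)) ≤ Real.exp κ := by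
      apply Real.exp_le_exp.2
      push_cast
      linarith
    have h4 : (1 + ((1 : ℕ) : ℝ)) ^ (d - 4) = 2 ^ (d - 4) := by
      congr 1
      push_cast
      norm_num
    rw [h4]
    exact mul_le_mul_of_nonneg_right h3 (by positivity)
  · intro w' hw'
    rw [if_neg hw', zero_mul]

lemma LaErK_F4 {κ : ℝ} {P : Par d} (h0 : 0 ≤ P.t) (h1 : P.t ≤ κ) (x : V d) (H : List (Ent d)) :
    ∑' w : V d, F4 P H w * ker (d - 4) P.t (w - x) ≤
      ENNReal.ofReal ((Fintype.card (Dir d) : ℝ) * (Real.exp κ * 2 ^ (d - 4))) *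
        FK P (d - 4) P.t H x := by
  induction H with
  | nil => simp [F4]
  | cons e H ih =>
    have e1 : ∀ w : V d, F4 P (e :: H) w * ker (d - 4) P.t (w - x) =
        P.g * ((∑ s : Dir d, (if w + step s ∈ e.A then (1 : ℝ≥0∞) else 0) *
          ker (d - 4) P.t (w - x)) + F4 P H w * ker (d - 4) P.t (w - x)) := by
      intro w
      rw [F4, mul_assoc, add_mul, Finset.sum_mul]
    rw [tsum_congr e1, ENNReal.tsum_mul_left, ENNReal.tsum_add,
      Summable.tsum_finsetSum fun _ _ => ENNReal.summable]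
    have e2 : ∑ s : Dir d, ∑' w : V d, (if w + step s ∈ e.A then (1 : ℝ≥0∞) else 0) *
        ker (d - 4) P.t (w - x) ≤
        ENNReal.ofReal ((Fintype.card (Dir d) : ℝ) * (Real.exp κ * 2 ^ (d - 4))) *
          ∑ w' ∈ e.A, ker (d - 4) P.t (x - w') := by
      refine (Finset.sum_le_sum fun s _ => LaErK_sh h0 h1 e.A x s).trans (le_of_eq ?_)
      rw [Finset.sum_const, Finset.card_univ, nsmul_eq_mul,
        ENNReal.ofReal_mul (p := (Fintype.card (Dir d) : ℝ)) (Nat.cast_nonneg _),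
        ENNReal.ofReal_natCast, mul_assoc]
    refine (mul_le_mul' le_rfl (add_le_add e2 ih)).trans (le_of_eq ?_)
    rw [FK]
    ring

theorem La_er4 (hd : 9 ≤ d) (κ A1 : ℝ) (hκ : 0 < κ) (hA : 0 < A1) : ∃ C : ℝ, 0 < C ∧
    ∀ P : Par d, 1 ≤ P.L → P.t = κ / P.L → TauUp d P.p P.t A1 →
      ∀ (S : Finset (V d)) (x : V d) (Q : Finset (V d)), Q.card ≤ P.L ^ d →
      ∀ H : List (Ent d), ∑ o ∈ Q, ∑' w : V d, F4 P H w * TO P.p S x o w ≤
        ENNReal.ofReal (C * (P.L : ℝ) ^ 2) * FK P (d - 4) P.t H x := by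
  obtain ⟨C1, hC1, h1⟩ := La_erG (d := d) hd κ A1 hκ hA
  have hn : (0 : ℝ) < Fintype.card (Dir d) := by
    have : 0 < Fintype.card (Dir d) := Fintype.card_pos_iff.2 ⟨(⟨0, by omega⟩, true)⟩
    exact_mod_cast this
  refine ⟨C1 * ((Fintype.card (Dir d) : ℝ) * (Real.exp κ * 2 ^ (d - 4))), by positivity,
    fun P hL ht hT S x Q hQ H => ?_⟩
  obtain ⟨h0, h0'⟩ := LaErK_t hκ hL
  rw [← ht] at h0 h0'
  refine (h1 P hL ht hT S x Q hQ _).trans
    ((mul_le_mul' le_rfl (LaErK_F4 h0 h0' x H)).trans (le_of_eq ?_))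
  rw [← mul_assoc, ← ENNReal.ofReal_mul (by positivity)]
  congr 2
  ring

end CF
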