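import Pool.Agent.H12.CF.LaDef
import Pool.Agent.H70.CF.Hist
import Pool.Agent.H70.CF.Rw

/-!
PROJECT CF (MP_0d9ad5_pr, note 2718), LEMMA A, JOB CF-LaFar: error (e1), centres near the history.
PROOF. `V2 o = ∑_{w ∈ occ H} ker (d-2) t (o - w)`. If `nm (w - o) ≤ R` for some `w ∈ occ H` then
`V2 o ≥ e^{-tR} / (1+R)^(d-2) ≥ θ1` (`t ≤ 1`); so `¬ farH` implies `V2 o ≥ θ = min (v0/2) θ1`, and
`(if farH then 0 else off) ≤ off * V2 o / θ`. `off ≤ tau (o - x) ≤ A1 / (1+L)^(d-2)` for `o` in the target cell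
(`cell_dist`). `∑_{o ∈ cell} V2 o = ∑_{w} ∑_{o} ker (d-2) t (o - w)`,
`ker (d-2) t (o - w) ≤ ker (d-2) 0 (o - w) * ker 0 t (o - w)`, `ker 0 t (o - w) ≤ e^κ ker 0 t (z' - w)` with
`z' = z + L v` (`ker_move`, `nm (o - z') ≤ L`), `∑_o ker (d-2) 0 (o - w) ≤ C L^2` (`pack_card`),
`∑_w ker 0 t (z' - w) ≤ b1 rho ≤ Λ L^4 C` (`occ_rho'`, `rho_le`). Total
`C L^(2-d) L^2 L^4 / θ = C / L^(d-8)`.
-/

namespace CF

open H5DF H95LBD MeasureTheory
open scoped ENNReal

variable {d : ℕ}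

/-- The threshold. -/
noncomputable def LaFar_th (d : ℕ) (v0 : ℝ) (R : ℕ) : ℝ :=
  min (v0 / 2) (Real.exp (-(R : ℝ)) / (1 + (R : ℝ)) ^ (d - 2))

lemma LaFar_th_pos {v0 : ℝ} (hv0 : 0 < v0) {R : ℕ} : 0 < LaFar_th d v0 R := by
  unfold LaFar_th
  exact lt_min (by positivity) (by positivity)

lemma LaFar_not {P : Par d} {v0 : ℝ} (hv0 : 0 < v0) (ht0 : 0 ≤ P.t) (ht1 : P.t ≤ 1)
    (hPv0 : P.v0 = ENNReal.ofReal v0) {H : List (Ent d)} {R : ℕ} {o : V d}
    (h : ¬ farH P H R o) :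
    ENNReal.ofReal (LaFar_th d v0 R) ≤ ∑ w ∈ occ H, ker (d - 2) P.t (o - w) := by
  unfold farH at h
  rw [not_and_or] at h
  rcases h with h | h
  · push Not at h
    obtain ⟨w, hw, hR⟩ := h
    refine le_trans ?_ (Finset.single_le_sum (f := fun w => ker (d - 2) P.t (o - w))
      (fun _ _ => bot_le) hw)
    unfold ker
    apply ENNReal.ofReal_le_ofReal
    refine (min_le_right _ _).trans ?_
    rw [nm_sub_comm] at hR
    have hRr : (nm (o - w) : ℝ) ≤ R := by exact_mod_cast hR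
    have hn : (0 : ℝ) ≤ nm (o - w) := Nat.cast_nonneg _
    apply div_le_div₀ (by positivity) _ (by positivity)
    · exact pow_le_pow_left₀ (by positivity) (by linarith) _
    · apply Real.exp_le_exp.2
      have : P.t * (nm (o - w) : ℝ) ≤ 1 * R := mul_le_mul ht1 hRr hn (by norm_num)
      linarith
  · have h1 := (not_le.1 h).le
    refine le_trans ?_ h1
    rw [hPv0]
    have h2 : ENNReal.ofReal v0 / 2 = ENNReal.ofReal (v0 / 2) := by
      rw [ENNReal.ofReal_div_of_pos (by norm_num)]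
      simp
    rw [h2]
    exact ENNReal.ofReal_le_ofReal (min_le_left _ _)

open Classical in
theorem La_far (hd : 9 ≤ d) (κ A1 Λ v0 : ℝ) (hκ : 0 < κ) (hA : 0 < A1) (hΛ : 0 < Λ) (hv0 : 0 < v0)
    (R : ℕ) : ∃ C : ℝ, 0 < C ∧
    ∀ P : Par d, 1 ≤ P.L → κ ≤ P.L → P.t = κ / P.L → P.v0 = ENNReal.ofReal v0 →
      P.b1 = ENNReal.ofReal (Λ * (P.L : ℝ) ^ 4) → TauUp d P.p P.t A1 →
      ∀ st : St d, good P st → ∀ v ∈ steps P.i0,
      ∑ o ∈ cell P.L (st.z + (P.L : ℤ) • v),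
        (if farH P st.H R o then 0 else off P.p (occ st.H) st.x o) ≤ ENNReal.ofReal C := by
  have hd2 : d - 2 < d := by omega
  have e2 : d - (d - 2) = 2 := by omega
  obtain ⟨Cp, hCp, hpack⟩ := pack_card (d := d) (d - 2) hd2
  obtain ⟨C', hC', hrho⟩ := rho_le (d := d) (by omega) κ hκ
  have hθ : 0 < LaFar_th d v0 R := LaFar_th_pos hv0
  refine ⟨A1 * Real.exp κ * Cp * Λ * C' / LaFar_th d v0 R, by positivity, ?_⟩
  intro P hL hκL ht hPv0 hb1 hT st hst v hv
  have hLr : (1 : ℝ) ≤ P.L := by exact_mod_cast hL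
  have hL0 : (0 : ℝ) < P.L := by linarith
  have ht0 : 0 ≤ P.t := by rw [ht]; positivity
  have ht1 : P.t ≤ 1 := by rw [ht, div_le_one hL0]; exact hκL
  have htL : P.t * P.L = κ := by rw [ht]; field_simp
  set z' := st.z + (P.L : ℤ) • v with hz'
  set V2 : V d → ℝ≥0∞ := fun o => ∑ w ∈ occ st.H, ker (d - 2) P.t (o - w) with hV2
  set a : ℝ≥0∞ := ENNReal.ofReal (A1 / (P.L : ℝ) ^ (d - 2)) with ha
  -- the one point function
  have hoff : ∀ o ∈ cell P.L z', off P.p (occ st.H) st.x o ≤ a := by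
    intro o ho
    refine (off_le_tau hT.h0 hT.h1 _ _ _).trans ((hT.up _).trans ?_)
    have h1 := (cell_dist hL hv (good_cell hL hst) ho).1
    have h2 : P.L ≤ nm (o - st.x) := by omega
    have h3 := ker_far h2 0 (d - 2) (2 * P.t)
    rw [zero_add] at h3
    have h4 : ker (d - 2) (2 * P.t) (o - st.x) ≤ ENNReal.ofReal (1 / (P.L : ℝ) ^ (d - 2)) := by
      refine h3.trans ?_
      refine (mul_le_mul' le_rfl (ker_le_one 0 (by linarith) _)).trans ?_
      rw [mul_one]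
      apply ENNReal.ofReal_le_ofReal
      apply one_div_le_one_div_of_le (by positivity)
      exact pow_le_pow_left₀ hL0.le (by linarith) _
    calc ENNReal.ofReal A1 * ker (d - 2) (2 * P.t) (o - st.x)
        ≤ ENNReal.ofReal A1 * ENNReal.ofReal (1 / (P.L : ℝ) ^ (d - 2)) := mul_le_mul' le_rfl h4
      _ = a := by
          rw [ha, ← ENNReal.ofReal_mul hA.le]
          congr 1
          ring
  -- the points which are not far
  have hnot : ∀ o, ¬ farH P st.H R o → ENNReal.ofReal (LaFar_th d v0 R) ≤ V2 o := by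
    intro o ho
    exact LaFar_not hv0 ht0 ht1 hPv0 ho
  have hθ0 : ENNReal.ofReal (LaFar_th d v0 R) ≠ 0 := (ENNReal.ofReal_pos.2 hθ).ne'
  have hθt : ENNReal.ofReal (LaFar_th d v0 R) ≠ ⊤ := ENNReal.ofReal_ne_top
  have hterm : ∀ o ∈ cell P.L z', (if farH P st.H R o then 0 else off P.p (occ st.H) st.x o) ≤
      a * ((ENNReal.ofReal (LaFar_th d v0 R))⁻¹ * V2 o) := by
    intro o ho
    split
    · exact bot_le
    · rename_i h
      have h1 : 1 ≤ (ENNReal.ofReal (LaFar_th d v0 R))⁻¹ * V2 o := by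
        rw [← ENNReal.inv_mul_cancel hθ0 hθt]
        exact mul_le_mul' le_rfl (hnot o h)
      calc off P.p (occ st.H) st.x o = off P.p (occ st.H) st.x o * 1 := (mul_one _).symm
        _ ≤ a * ((ENNReal.ofReal (LaFar_th d v0 R))⁻¹ * V2 o) := mul_le_mul' (hoff o ho) h1
  -- the sum of the potential over the cell
  have hsum : ∑ o ∈ cell P.L z', V2 o ≤
      ENNReal.ofReal (Real.exp κ) * ENNReal.ofReal (Cp * (P.L : ℝ) ^ 2) *
        (ENNReal.ofReal (Λ * (P.L : ℝ) ^ 4) * ENNReal.ofReal C') := by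
    rw [hV2]
    simp only
    rw [Finset.sum_comm]
    have hw : ∀ w ∈ occ st.H, ∑ o ∈ cell P.L z', ker (d - 2) P.t (o - w) ≤
        ENNReal.ofReal (Real.exp κ) * ENNReal.ofReal (Cp * (P.L : ℝ) ^ 2) * ker 0 P.t (z' - w) := by
      intro w _
      have h1 : ∀ o ∈ cell P.L z', ker (d - 2) P.t (o - w) ≤
          ENNReal.ofReal (Real.exp κ) * ker 0 P.t (z' - w) * ker (d - 2) 0 (o - w) := by
        intro o ho
        have h2 : ker (d - 2) P.t (o - w) = ker 0 P.t (o - w) * ker (d - 2) 0 (o - w) := by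
          rw [ker_mul, zero_add, add_zero]
        rw [h2]
        refine mul_le_mul' ?_ le_rfl
        have h3 : nm ((o - w) - (z' - w)) ≤ P.L := by
          rw [sub_sub_sub_cancel_right, nm_le]
          intro i
          have h4 := (mem_cell.1 ho) i
          rw [Pi.sub_apply]
          omega
        have h5 := ker_move ht0 0 P.L h3
        rw [pow_zero, mul_one, htL] at h5
        exact h5
      calc ∑ o ∈ cell P.L z', ker (d - 2) P.t (o - w)
          ≤ ∑ o ∈ cell P.L z', ENNReal.ofReal (Real.exp κ) * ker 0 P.t (z' - w) *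
              ker (d - 2) 0 (o - w) := Finset.sum_le_sum h1
        _ = ENNReal.ofReal (Real.exp κ) * ker 0 P.t (z' - w) *
              ∑ o ∈ cell P.L z', ker (d - 2) 0 (o - w) := by rw [Finset.mul_sum]
        _ ≤ ENNReal.ofReal (Real.exp κ) * ker 0 P.t (z' - w) *
              ENNReal.ofReal (Cp * (P.L : ℝ) ^ 2) := by
            refine mul_le_mul' le_rfl ?_
            have h6 := hpack (cell P.L z') w P.L hL (by rw [card_cell])
            rwa [e2] at h6
        _ = _ := by ring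
    calc ∑ w ∈ occ st.H, ∑ o ∈ cell P.L z', ker (d - 2) P.t (o - w)
        ≤ ∑ w ∈ occ st.H, ENNReal.ofReal (Real.exp κ) * ENNReal.ofReal (Cp * (P.L : ℝ) ^ 2) *
            ker 0 P.t (z' - w) := Finset.sum_le_sum hw
      _ = ENNReal.ofReal (Real.exp κ) * ENNReal.ofReal (Cp * (P.L : ℝ) ^ 2) *
            ∑ w ∈ occ st.H, ker 0 P.t (z' - w) := by rw [Finset.mul_sum]
      _ ≤ _ := by
          refine mul_le_mul' le_rfl ?_
          refine (occ_rho' P ht0 st hst z').trans ?_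
          rw [hb1]
          exact mul_le_mul' le_rfl (hrho P hL ht st hst z')
  -- the result
  calc ∑ o ∈ cell P.L z', (if farH P st.H R o then 0 else off P.p (occ st.H) st.x o)
      ≤ ∑ o ∈ cell P.L z', a * ((ENNReal.ofReal (LaFar_th d v0 R))⁻¹ * V2 o) :=
        Finset.sum_le_sum hterm
    _ = a * ((ENNReal.ofReal (LaFar_th d v0 R))⁻¹ * ∑ o ∈ cell P.L z', V2 o) := by
        rw [← Finset.mul_sum, ← Finset.mul_sum]
    _ ≤ a * ((ENNReal.ofReal (LaFar_th d v0 R))⁻¹ *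
          (ENNReal.ofReal (Real.exp κ) * ENNReal.ofReal (Cp * (P.L : ℝ) ^ 2) *
            (ENNReal.ofReal (Λ * (P.L : ℝ) ^ 4) * ENNReal.ofReal C'))) :=
        mul_le_mul' le_rfl (mul_le_mul' le_rfl hsum)
    _ = ENNReal.ofReal (A1 / (P.L : ℝ) ^ (d - 2) * ((LaFar_th d v0 R)⁻¹ *
          (Real.exp κ * (Cp * (P.L : ℝ) ^ 2) * (Λ * (P.L : ℝ) ^ 4 * C')))) := by
        rw [ha, ← ENNReal.ofReal_inv_of_pos hθ, ← ENNReal.ofReal_mul (by positivity),
          ← ENNReal.ofReal_mul (by positivity), ← ENNReal.ofReal_mul (by positivity),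
          ← ENNReal.ofReal_mul (by positivity), ← ENNReal.ofReal_mul (by positivity)]
    _ ≤ ENNReal.ofReal (A1 * Real.exp κ * Cp * Λ * C' / LaFar_th d v0 R) := by
        apply ENNReal.ofReal_le_ofReal
        have h1 : (P.L : ℝ) ^ 2 * (P.L : ℝ) ^ 4 ≤ (P.L : ℝ) ^ (d - 2) := by
          rw [← pow_add]
          exact pow_le_pow_right₀ hLr (by omega)
        have h2 : 0 < (P.L : ℝ) ^ (d - 2) := by positivity
        have h3 : (P.L : ℝ) ^ 2 * (P.L : ℝ) ^ 4 / (P.L : ℝ) ^ (d - 2) ≤ 1 := by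
          rw [div_le_one h2]
          exact h1
        have h4 : A1 / (P.L : ℝ) ^ (d - 2) * ((LaFar_th d v0 R)⁻¹ *
            (Real.exp κ * (Cp * (P.L : ℝ) ^ 2) * (Λ * (P.L : ℝ) ^ 4 * C'))) =
            (A1 * Real.exp κ * Cp * Λ * C' / LaFar_th d v0 R) *
              ((P.L : ℝ) ^ 2 * (P.L : ℝ) ^ 4 / (P.L : ℝ) ^ (d - 2)) := by
          field_simp
        rw [h4]
        exact mul_le_of_le_one_right (by positivity) h3

end CF
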