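import Pool.Agent.H12.CF.LaExt
import Pool.Agent.H95.LBS.Thin
import Pool.Agent.H95.LBD.LawC

/-!
PROJECT CF (MP_0d9ad5_pr, note 2718), LEMMA A, JOB CF-LaInd: surgery, probabilities.
PROOF. `GE` is measurable (countable union over `B` of `{cluster .. = B}`: measurable as in `meas_cl`, with
the measurable map `shut o R`) and depends only on the edges off `T = ins (Bx o R)`. `T` is a finite set of at
most `d (2R+1)^d` edges (injection into `BF o R × Fin d`; `H95LBS.mem_BF`, card of a ball: translate of `Box`).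
`{ζ | ∀ e ∈ T, ζ e = false}` has probability `(1-p)^(card T)` (`H95LBS.Thin_closed`), independence:
`indep_gen` (LBD/LawC). The intersection is contained in `EE` (`La_ext`).
-/

namespace CF

open H5DF H95LBD MeasureTheory
open scoped ENNReal

variable {d : ℕ}

lemma LaInd_meas_shut (o : V d) (R : ℕ) : Measurable (shut o R : Cfg d → Cfg d) := by
  classical
  refine measurable_pi_iff.2 fun e => ?_
  unfold shut
  exact (measurable_of_countable (fun b : Bool => b && !decide (e ∈ ins (Bx o R)))).comp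
    (measurable_pi_apply e)

lemma LaInd_meas (P : Par d) (H : List (Ent d)) (x o : V d) (R : ℕ) :
    MeasurableSet (GE P H x o R) := by
  have h1 : GE P H x o R = ⋃ B : Finset (V d),
      ({ζ : Cfg d | cluster (cut ((occ H : Set (V d))ᶜ) (shut o R ζ)) x = (B : Set (V d))} ∩
      {_ζ : Cfg d | gc P H x B ∧
        (∃ b ∈ B, nm (b - o) ≤ R) ∧ (∀ w ∈ B, R ≤ nm (w - o)) ∧
        ∑ w ∈ B, ker (d - 2) P.t (o - w) ≤ P.v0 / 2}) := by
    ext ζ
    simp only [GE, Set.mem_iUnion, Set.mem_inter_iff, Set.mem_ofPred_eq]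
  rw [h1]
  refine MeasurableSet.iUnion fun B => MeasurableSet.inter ?_ (MeasurableSet.const _)
  exact (LaInd_meas_shut o R) (meas_cl (occ H) x (B : Set (V d)))

lemma LaInd_dep (P : Par d) (H : List (Ent d)) (x o : V d) (R : ℕ) (ζ ζ' : Cfg d)
    (h : ∀ e, e ∉ ins (Bx o R) → ζ e = ζ' e) (hζ : ζ ∈ GE P H x o R) : ζ' ∈ GE P H x o R := by
  have h1 : shut o R ζ = shut o R ζ' := by
    funext e
    unfold shut
    by_cases he : e ∈ ins (Bx o R)
    · simp [he]
    · rw [h e he]
  unfold GE at hζ ⊢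
  rw [Set.mem_ofPred_eq] at hζ ⊢
  rw [← h1]
  exact hζ

open Classical in
/-- The edges inside the ball. -/
noncomputable def LaInd_T (o : V d) (R : ℕ) : Finset (Ed d) :=
  ((H95LBS.BF o R) ×ˢ (Finset.univ : Finset (Fin d))).filter fun e => e ∈ ins (Bx o R)

lemma LaInd_mem (o : V d) (R : ℕ) (e : Ed d) : e ∈ LaInd_T o R ↔ e ∈ ins (Bx o R) := by
  classical
  unfold LaInd_T
  rw [Finset.mem_filter, Finset.mem_product]
  constructor
  · exact fun h => h.2
  · intro h
    exact ⟨⟨H95LBS.mem_BF.2 h.1, Finset.mem_univ _⟩, h⟩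

lemma LaInd_card (o : V d) (R : ℕ) : (LaInd_T o R).card ≤ d * (2 * R + 1) ^ d := by
  classical
  unfold LaInd_T
  refine (Finset.card_filter_le _ _).trans ?_
  rw [Finset.card_product, Finset.card_univ, Fintype.card_fin, mul_comm]
  refine Nat.mul_le_mul_left _ ?_
  unfold H95LBS.BF
  refine Finset.card_image_le.trans ?_
  rw [card_Box]

theorem La_ind (P : Par d) (h0 : 0 ≤ P.p) (h1 : P.p ≤ 1) (st : St d) (hst : good P st) (v : V d)
    (hv : v ∈ steps P.i0) (o : V d) (R : ℕ) (hR : 1 ≤ R) (hR1 : d * R ≤ P.R1)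
    (hfar : farH P st.H R o)
    (hcell : ∀ y : V d, nm (y - o) ≤ R → y ∈ cell P.L (st.z + (P.L : ℤ) • v)) :
    ENNReal.ofReal ((1 - P.p) ^ (d * (2 * R + 1) ^ d)) * perc d P.p (GE P st.H st.x o R) ≤
      perc d P.p (EE P st v o R) := by
  have hP := isProb_bern h0 h1
  set C : Set (Cfg d) := {ζ | ∀ e ∈ LaInd_T o R, ζ e = false} with hC
  have hCm : MeasurableSet C := by
    have h2 : C = ⋂ e ∈ LaInd_T o R, {ζ : Cfg d | ζ e = false} := by
      ext ζ
      simp [hC]
    rw [h2]
    refine Finset.measurableSet_biInter _ fun e _ => ?_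
    exact measurable_pi_apply (X := fun _ : Ed d => Bool) e
      (MeasurableSet.of_discrete (s := {false}))
  have hind : perc d P.p (C ∩ GE P st.H st.x o R) =
      perc d P.p C * perc d P.p (GE P st.H st.x o R) := by
    unfold perc
    refine indep_gen (bern P.p) (ins (Bx o R)) C (GE P st.H st.x o R) hCm
      (LaInd_meas P st.H st.x o R) ?_ ?_
    · intro ω ω' h hω e he
      rw [← h e ((LaInd_mem o R e).1 he)]
      exact hω e he
    · intro ω ω' h hω
      exact LaInd_dep P st.H st.x o R ω ω' h hω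
  calc ENNReal.ofReal ((1 - P.p) ^ (d * (2 * R + 1) ^ d)) * perc d P.p (GE P st.H st.x o R)
      ≤ perc d P.p C * perc d P.p (GE P st.H st.x o R) := by
        refine mul_le_mul' ?_ le_rfl
        rw [hC, H95LBS.Thin_closed h0 h1, ENNReal.ofReal_pow (by linarith)]
        refine pow_le_pow_of_le_one zero_le ?_ (LaInd_card o R)
        rw [ENNReal.ofReal_le_one]
        linarith
    _ = perc d P.p (C ∩ GE P st.H st.x o R) := hind.symm
    _ ≤ perc d P.p (EE P st v o R) := by
        refine measure_mono ?_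
        rintro ζ ⟨hζ, hG⟩
        exact La_ext P st hst v hv o R hR hR1 hfar hcell ζ hG
          fun e he => hζ e ((LaInd_mem o R e).2 he)

end CF
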