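import Pool.Agent.H12.CF.LaDef

/-!
PROJECT CF (MP_0d9ad5_pr, note 2718), LEMMA A, JOB CF-LaLow: the sum of `off` over the cubes.
PROOF of La_low. `good_gs`: a runway `l` from `x` of length `≤ R1` to `o1 = pend x l` off `occ H` with
`∑_{w ∈ occ H} ker (d-2) t (o1 - w) ≤ v0`. `off_runway`: `off x u ≥ p^|l| off o1 u ≥ pm^R1 off o1 u` (`pm ≤ p ≤ 1`).
`off_ge`: `off o1 u ≥ tau (u - o1) - ∑_{w ∈ occ H} tau (w - o1) tau (u - w)`. Sum over `u ∈ Q = QQ (L/8)`: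
`nm (u - o1) ≤ 3 L + R1 ≤ 6 L` (`cell_dist`; the length of a path bounds the distance of its ends), so
`tau (u - o1) ≥ a0 / (1 + 6L)^(d-2)`; `card Q = (2 (L/8) + 1)^d ≥ (L/8)^d`: first part `≥ 2 c L^2`.
`∑_{u ∈ Q} tau (u - w) ≤ A1 C L^2` (`pack_card`), `tau (w - o1) ≤ A1 ker (d-2) t (o1 - w)`: second part
`≤ A1^2 C L^2 v0 ≤ c L^2` if `v0` is small.
La_up: `off ≤ tau ≤ A1 ker (d-2) 0` and `pack_card`.
-/

namespace CF

open H5DF H95LBD MeasureTheory
open scoped ENNReal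

variable {d : ℕ}

lemma LaLow_pend (x : V d) (l : List (Dir d)) : nm (pend x l - x) ≤ l.length := by
  induction l generalizing x with
  | nil => simp [pend, nm_zero]
  | cons s l ih =>
    have h1 := ih (x + step s)
    have h2 := nm_tri (pend (x + step s) l) (x + step s) x
    have h3 : nm (x + step s - x) = 1 := by rw [add_sub_cancel_left, nm_step]
    rw [h3] at h2
    show nm (pend (x + step s) l - x) ≤ _
    rw [List.length_cons]
    omega

lemma LaLow_card (z : V d) (n : ℕ) : (H95LBS.BF z n).card = (2 * n + 1) ^ d := by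
  have h : H95LBS.BF z n = Fintype.piFinset fun i => Finset.Icc (z i - n) (z i + n) := by
    ext x
    rw [H95LBS.mem_BF, nm_le, Fintype.mem_piFinset]
    refine forall_congr' fun i => ?_
    rw [Finset.mem_Icc, Pi.sub_apply]
    constructor
    · intro h; omega
    · intro h; omega
  rw [h, Fintype.card_piFinset]
  have : ∀ i : Fin d, (Finset.Icc (z i - n) (z i + n)).card = 2 * n + 1 := by
    intro i
    rw [Int.card_Icc]
    omega
  rw [Finset.prod_congr rfl fun i _ => this i]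
  simp

lemma LaLow_tau {P : Par d} {A1 : ℝ} (ht : 0 ≤ P.t) (hT : TauUp d P.p P.t A1) (z : V d) :
    tau d P.p z ≤ ENNReal.ofReal A1 * ker (d - 2) P.t z := by
  refine (hT.up z).trans ?_
  gcongr
  exact ker_rate _ (by linarith) z

lemma LaLow_sum {C : ℝ} (hC : ∀ (A : Finset (V d)) (w : V d) (L : ℕ),
    1 ≤ L → A.card ≤ L ^ d → ∑ y ∈ A, ker (d - 2) 0 (y - w) ≤ ENNReal.ofReal (C * (L : ℝ) ^ (d - (d - 2))))
    (hd : 2 ≤ d) {P : Par d} {A1 : ℝ} (hA : 0 < A1) (ht : 0 ≤ P.t) (hL : 1 ≤ P.L) (hT : TauUp d P.p P.t A1)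
    (Q : Finset (V d)) (hQ : Q.card ≤ P.L ^ d) (w : V d) :
    ∑ u ∈ Q, tau d P.p (u - w) ≤ ENNReal.ofReal (A1 * (C * (P.L : ℝ) ^ 2)) := by
  have e : d - (d - 2) = 2 := by omega
  have h1 := hC Q w P.L hL hQ
  rw [e] at h1
  calc ∑ u ∈ Q, tau d P.p (u - w) ≤ ∑ u ∈ Q, ENNReal.ofReal A1 * ker (d - 2) 0 (u - w) := by
        refine Finset.sum_le_sum fun u _ => (LaLow_tau ht hT _).trans ?_
        gcongr
        exact ker_rate _ ht _
    _ = ENNReal.ofReal A1 * ∑ u ∈ Q, ker (d - 2) 0 (u - w) := by rw [Finset.mul_sum]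
    _ ≤ ENNReal.ofReal A1 * ENNReal.ofReal (C * (P.L : ℝ) ^ 2) := by gcongr
    _ = _ := by rw [ENNReal.ofReal_mul hA.le]

theorem La_low (hd : 9 ≤ d) (κ a0 A1 pm : ℝ) (hκ : 0 < κ) (ha : 0 < a0) (hA : 0 < A1)
    (hpm : 0 < pm) : ∃ v0 c : ℝ, 0 < v0 ∧ 0 < c ∧
    ∀ P : Par d, 16 ≤ P.L → P.R1 ≤ P.L → P.t = κ / P.L → P.v0 = ENNReal.ofReal v0 →
      pm ≤ P.p → TauUp d P.p P.t A1 →
      (∀ x : V d, nm x ≤ 6 * P.L → ENNReal.ofReal a0 * ker (d - 2) 0 x ≤ tau d P.p x) →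
      ∀ st : St d, good P st → ∀ v ∈ steps P.i0,
      ENNReal.ofReal (pm ^ P.R1 * (c * (P.L : ℝ) ^ 2)) ≤
        ∑ u ∈ QQ P st v (P.L / 8), off P.p (occ st.H) st.x u := by
  obtain ⟨C, hC0, hC⟩ := pack_card (d := d) (d - 2) (by omega)
  set c : ℝ := a0 / (2 * 8 ^ d * 5 ^ (d - 2)) with hc
  have hc0 : 0 < c := by positivity
  refine ⟨c / (A1 * (A1 * C)), c, by positivity, hc0, ?_⟩
  intro P hL hR ht hv0 hp hT hlow st hst v hv
  have hLr : (16 : ℝ) ≤ P.L := by exact_mod_cast hL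
  have ht0 : 0 ≤ P.t := by rw [ht]; positivity
  obtain ⟨l, hl1, hl2, hl3⟩ := good_gs hst
  set o1 := pend st.x l with ho1
  set Q := QQ P st v (P.L / 8) with hQ
  have hn : P.L / 8 < P.L / 2 := by omega
  have hQc : Q.card ≤ P.L ^ d := QQ_card hn
  have hdist : ∀ u ∈ Q, nm (u - o1) ≤ 4 * P.L := by
    intro u hu
    have h1 := (cell_dist (P := P) (by omega) hv (good_cell (by omega) hst) (QQ_sub hn hu)).2
    have h2 : nm (o1 - st.x) ≤ l.length := LaLow_pend st.x l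
    have h3 := nm_tri u st.x o1
    rw [nm_sub_comm st.x o1] at h3
    omega
  -- first part
  have first : ENNReal.ofReal (2 * c * (P.L : ℝ) ^ 2) ≤ ∑ u ∈ Q, tau d P.p (u - o1) := by
    have h1 : ∀ u ∈ Q, ENNReal.ofReal (a0 / (5 * (P.L : ℝ)) ^ (d - 2)) ≤ tau d P.p (u - o1) := by
      intro u hu
      have hu' := hdist u hu
      refine le_trans ?_ (hlow (u - o1) (by omega))
      rw [KerC_zero, ← ENNReal.ofReal_mul ha.le]
      apply ENNReal.ofReal_le_ofReal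
      rw [mul_one_div]
      apply div_le_div_of_nonneg_left ha.le (by positivity)
      apply pow_le_pow_left₀ (by positivity)
      have : (nm (u - o1) : ℝ) ≤ 4 * P.L := by exact_mod_cast hu'
      linarith
    have h2 := Finset.sum_le_sum h1
    rw [Finset.sum_const, nsmul_eq_mul] at h2
    refine le_trans ?_ h2
    have h3 : ENNReal.ofReal (((P.L : ℝ) / 8) ^ d) ≤ (Q.card : ℝ≥0∞) := by
      rw [← ENNReal.ofReal_natCast]
      apply ENNReal.ofReal_le_ofReal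
      rw [hQ, QQ, LaLow_card]
      push_cast
      apply pow_le_pow_left₀ (by positivity)
      have h4 : P.L ≤ 8 * (P.L / 8) + 7 := by omega
      have h5 : (P.L : ℝ) ≤ 8 * ((P.L / 8 : ℕ) : ℝ) + 7 := by exact_mod_cast h4
      linarith
    have h6 : ENNReal.ofReal (2 * c * (P.L : ℝ) ^ 2)
        = ENNReal.ofReal (((P.L : ℝ) / 8) ^ d) * ENNReal.ofReal (a0 / (5 * (P.L : ℝ)) ^ (d - 2)) := by
      rw [← ENNReal.ofReal_mul (by positivity)]
      congr 1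
      have e : (P.L : ℝ) ^ d = (P.L : ℝ) ^ (d - 2) * (P.L : ℝ) ^ 2 := by
        rw [← pow_add]; congr 1; omega
      rw [hc, div_pow, mul_pow, e]
      field_simp
    rw [h6]
    gcongr
  -- second part
  have second : ∑ u ∈ Q, ∑ w ∈ occ st.H, tau d P.p (w - o1) * tau d P.p (u - w) ≤
      ENNReal.ofReal (c * (P.L : ℝ) ^ 2) := by
    rw [Finset.sum_comm]
    calc ∑ w ∈ occ st.H, ∑ u ∈ Q, tau d P.p (w - o1) * tau d P.p (u - w)
        = ∑ w ∈ occ st.H, tau d P.p (w - o1) * ∑ u ∈ Q, tau d P.p (u - w) := by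
          refine Finset.sum_congr rfl fun w _ => ?_
          rw [Finset.mul_sum]
      _ ≤ ∑ w ∈ occ st.H, (ENNReal.ofReal A1 * ker (d - 2) P.t (o1 - w)) *
            ENNReal.ofReal (A1 * (C * (P.L : ℝ) ^ 2)) := by
          refine Finset.sum_le_sum fun w _ => ?_
          refine mul_le_mul' ?_ (LaLow_sum hC (by omega) hA ht0 (by omega) hT Q hQc w)
          rw [ker_comm]
          exact LaLow_tau ht0 hT _
      _ = ENNReal.ofReal A1 * (∑ w ∈ occ st.H, ker (d - 2) P.t (o1 - w)) *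
            ENNReal.ofReal (A1 * (C * (P.L : ℝ) ^ 2)) := by
          rw [Finset.mul_sum, Finset.sum_mul]
      _ ≤ ENNReal.ofReal A1 * P.v0 * ENNReal.ofReal (A1 * (C * (P.L : ℝ) ^ 2)) := by
          gcongr
      _ = ENNReal.ofReal (c * (P.L : ℝ) ^ 2) := by
          rw [hv0, ← ENNReal.ofReal_mul hA.le, ← ENNReal.ofReal_mul (by positivity)]
          congr 1
          field_simp
  have key : ENNReal.ofReal (c * (P.L : ℝ) ^ 2) ≤ ∑ u ∈ Q, off P.p (occ st.H) o1 u := by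
    have h1 : ∑ u ∈ Q, tau d P.p (u - o1) ≤ ∑ u ∈ Q, off P.p (occ st.H) o1 u +
        ∑ u ∈ Q, ∑ w ∈ occ st.H, tau d P.p (w - o1) * tau d P.p (u - w) := by
      rw [← Finset.sum_add_distrib]
      exact Finset.sum_le_sum fun u _ => off_ge hT.h0 hT.h1 (occ st.H) o1 u
    have h2 : ENNReal.ofReal (c * (P.L : ℝ) ^ 2) + ENNReal.ofReal (c * (P.L : ℝ) ^ 2) ≤
        ∑ u ∈ Q, off P.p (occ st.H) o1 u + ENNReal.ofReal (c * (P.L : ℝ) ^ 2) := by
      rw [← ENNReal.ofReal_add (by positivity) (by positivity)]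
      have e : c * (P.L : ℝ) ^ 2 + c * (P.L : ℝ) ^ 2 = 2 * c * (P.L : ℝ) ^ 2 := by ring
      rw [e]
      exact first.trans (h1.trans (by gcongr))
    exact (ENNReal.add_le_add_iff_right ENNReal.ofReal_ne_top).1 h2
  have hpl : pm ^ P.R1 ≤ P.p ^ l.length := by
    have hpm1 : pm ≤ 1 := hp.trans hT.h1
    calc pm ^ P.R1 ≤ pm ^ l.length := pow_le_pow_of_le_one hpm.le hpm1 hl1
      _ ≤ P.p ^ l.length := pow_le_pow_left₀ hpm.le hp _
  calc ENNReal.ofReal (pm ^ P.R1 * (c * (P.L : ℝ) ^ 2))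
      = ENNReal.ofReal (pm ^ P.R1) * ENNReal.ofReal (c * (P.L : ℝ) ^ 2) := by
        rw [ENNReal.ofReal_mul (by positivity)]
    _ ≤ ENNReal.ofReal (P.p ^ l.length) * ∑ u ∈ Q, off P.p (occ st.H) o1 u :=
        mul_le_mul' (ENNReal.ofReal_le_ofReal hpl) key
    _ = ∑ u ∈ Q, ENNReal.ofReal (P.p ^ l.length) * off P.p (occ st.H) o1 u := by rw [Finset.mul_sum]
    _ ≤ _ := Finset.sum_le_sum fun u _ => off_runway hT.h0 hT.h1 (occ st.H) st.x u l hl2

theorem La_up (hd : 9 ≤ d) (κ A1 : ℝ) (hκ : 0 < κ) (hA : 0 < A1) : ∃ C : ℝ, 0 < C ∧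
    ∀ P : Par d, 1 ≤ P.L → P.t = κ / P.L → TauUp d P.p P.t A1 →
      ∀ (S : Finset (V d)) (x : V d) (Q : Finset (V d)), Q.card ≤ P.L ^ d →
      ∑ u ∈ Q, off P.p S x u ≤ ENNReal.ofReal (C * (P.L : ℝ) ^ 2) := by
  obtain ⟨C, hC0, hC⟩ := pack_card (d := d) (d - 2) (by omega)
  refine ⟨A1 * C, by positivity, ?_⟩
  intro P hL ht hT S x Q hQ
  have ht0 : 0 ≤ P.t := by rw [ht]; positivity
  calc ∑ u ∈ Q, off P.p S x u ≤ ∑ u ∈ Q, tau d P.p (u - x) :=
        Finset.sum_le_sum fun u _ => off_le_tau hT.h0 hT.h1 S x u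
    _ ≤ ENNReal.ofReal (A1 * (C * (P.L : ℝ) ^ 2)) := LaLow_sum hC (by omega) hA ht0 hL hT Q hQ x
    _ = _ := by rw [mul_assoc]

end CF
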