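import Pool.Agent.H12.CF.LaDef

/-!
PROJECT CF (MP_0d9ad5_pr, note 2718), LEMMA A, JOB CF-LaMk: Markov and tree inequalities.
PROOF. `b * perc (Er ..) ≤ ∫ 1_{o ∈ C} csum f` (`b ≤ csum` on the event, `setLIntegral`), exchange sum and
integral (`lintegral_tsum`, measurability `meas_off`), `off_two`.
-/

namespace CF

open H5DF H95LBD MeasureTheory
open scoped ENNReal

variable {d : ℕ}

theorem La_mk {p : ℝ} (h0 : 0 ≤ p) (h1 : p ≤ 1) (S : Finset (V d)) (x o : V d) (f : V d → ℝ≥0∞)
    (b : ℝ≥0∞) : b * perc d p (Er S x o f b) ≤ ∑' w : V d, f w * TO p S x o w := by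
  classical
  set O : Set (Cfg d) := {ζ | o ∈ cluster (cut ((S : Set (V d))ᶜ) ζ) x} with hO
  have hOm : MeasurableSet O := meas_off S x o
  have hWm : ∀ w : V d, MeasurableSet {ζ : Cfg d | w ∈ cluster (cut ((S : Set (V d))ᶜ) ζ) x} :=
    fun w => meas_off S x w
  -- the integrand
  have hcs : ∀ ζ, csum S x f ζ = ∑' w : V d,
      {ζ : Cfg d | w ∈ cluster (cut ((S : Set (V d))ᶜ) ζ) x}.indicator (fun _ => f w) ζ := by
    intro ζ
    unfold csum
    refine tsum_congr fun w => ?_
    by_cases hw : w ∈ cluster (cut ((S : Set (V d))ᶜ) ζ) x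
    · have hw' : ζ ∈ {ζ : Cfg d | w ∈ cluster (cut ((S : Set (V d))ᶜ) ζ) x} := hw
      rw [Set.indicator_of_mem hw, Set.indicator_of_mem hw']
    · have hw' : ζ ∉ {ζ : Cfg d | w ∈ cluster (cut ((S : Set (V d))ᶜ) ζ) x} := hw
      rw [Set.indicator_of_notMem hw, Set.indicator_of_notMem hw']
  have hfm : ∀ w : V d, Measurable ({ζ : Cfg d | w ∈ cluster (cut ((S : Set (V d))ᶜ) ζ) x}.indicator
      (fun _ => f w)) := fun w => measurable_const.indicator (hWm w)
  calc b * perc d p (Er S x o f b)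
      ≤ b * perc d p ({ζ | b ≤ csum S x f ζ} ∩ O) := by
        refine mul_le_mul' le_rfl (measure_mono ?_)
        rintro ζ ⟨h2, h3⟩
        exact ⟨h3.le, h2⟩
    _ ≤ ∫⁻ ζ in O, csum S x f ζ ∂(perc d p) := by
        have h2 := mul_meas_ge_le_lintegral₀ (μ := (perc d p).restrict O) (f := csum S x f) ?_ b
        · refine le_trans (le_of_eq ?_) h2
          rw [Measure.restrict_apply' hOm]
        · refine Measurable.aemeasurable ?_
          have h3 : csum S x f = fun ζ => ∑' w : V d,
              {ζ : Cfg d | w ∈ cluster (cut ((S : Set (V d))ᶜ) ζ) x}.indicator (fun _ => f w) ζ :=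
            funext hcs
          rw [h3]
          exact Measurable.tsum hfm
    _ = ∑' w : V d, ∫⁻ ζ in O, {ζ : Cfg d | w ∈ cluster (cut ((S : Set (V d))ᶜ) ζ) x}.indicator
          (fun _ => f w) ζ ∂(perc d p) := by
        rw [← lintegral_tsum fun w => (hfm w).aemeasurable]
        exact lintegral_congr fun ζ => hcs ζ
    _ ≤ ∑' w : V d, f w * TO p S x o w := by
        refine ENNReal.tsum_le_tsum fun w => ?_
        rw [lintegral_indicator_const (hWm w), Measure.restrict_apply (hWm w)]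
        refine mul_le_mul' le_rfl ?_
        have h2 := off_two h0 h1 S x o w
        refine le_trans ?_ h2
        refine measure_mono ?_
        rintro ζ ⟨h3, h4⟩
        exact ⟨h4, h3⟩

end CF
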