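import Pool.Agent.H12.CF.LaSurg
import Pool.Agent.H12.CF.LaInd
import Pool.Agent.H12.CF.LaCnt
import Pool.Agent.H12.CF.LaMk
import Pool.Agent.H12.CF.LaEr1
import Pool.Agent.H12.CF.LaErK
import Pool.Agent.H12.CF.LaEr2
import Pool.Agent.H12.CF.LaFar
import Pool.Agent.H12.CF.LaLow
import Pool.Agent.H70.CF.HistP

/-!
PROJECT CF (MP_0d9ad5_pr, note 2718), LEMMA A (assembly).
-/

namespace CF

open H5DF H95LBD MeasureTheory
open scoped ENNReal

variable {d : ℕ}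

lemma LaMain_pig (M : ℕ → ℝ≥0∞) (m : ℕ) (c : ℝ≥0∞) (h0 : c ≤ M 0) (hm : M m < 2 ^ m * c) :
    ∃ i < m, M (i + 1) ≤ 2 * M i := by
  by_contra hcon
  push Not at hcon
  have h : ∀ i ≤ m, 2 ^ i * c ≤ M i := by
    intro i
    induction i with
    | zero => intro _; simpa using h0
    | succ i ih =>
      intro hi
      refine le_trans ?_ (hcon i (by omega)).le
      rw [pow_succ', mul_assoc]
      exact mul_le_mul' le_rfl (ih (by omega))
  exact absurd hm (not_lt.2 (h m le_rfl))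

open Classical in
/-- The sum of the probabilities of `GE` over the far centres. -/
noncomputable def Gs (P : Par d) (st : St d) (R : ℕ) (Q : Finset (V d)) : ℝ≥0∞ :=
  ∑ o ∈ Q, if farH P st.H R o then perc d P.p (GE P st.H st.x o R) else 0

open Classical in
/-- The sum of `off` over the near centres. -/
noncomputable def Ns (P : Par d) (st : St d) (R : ℕ) (Q : Finset (V d)) : ℝ≥0∞ :=
  ∑ o ∈ Q, if farH P st.H R o then 0 else off P.p (occ st.H) st.x o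

/-- The sum of the probabilities of an error. -/
noncomputable def Es (P : Par d) (st : St d) (f : V d → V d → ℝ≥0∞) (b : ℝ≥0∞)
    (Q : Finset (V d)) : ℝ≥0∞ :=
  ∑ o ∈ Q, perc d P.p (Er (occ st.H) st.x o (f o) b)

lemma LaMain_E (P : Par d) (h0 : 0 ≤ P.p) (h1 : P.p ≤ 1) (st : St d) (f : V d → V d → ℝ≥0∞)
    (b : ℝ≥0∞) (Q : Finset (V d)) :
    b * Es P st f b Q ≤ ∑ o ∈ Q, ∑' w : V d, f o w * TO P.p (occ st.H) st.x o w := by
  unfold Es
  rw [Finset.mul_sum]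
  exact Finset.sum_le_sum fun o _ => La_mk h0 h1 _ _ _ _ _

lemma LaMain_one (P : Par d) (ht : 0 ≤ P.t) (hb1 : P.b1 ≠ ⊤) (st : St d) (o : V d) (R : ℕ)
    (hx : R < nm (st.x - o)) :
    off P.p (occ st.H) st.x o ≤ perc d P.p (GE P st.H st.x o R) +
      (perc d P.p (Er (occ st.H) st.x o (fun w => gro P.t (w - st.x)) P.b1) +
      (perc d P.p (Er (occ st.H) st.x o (FK P (d - 4) P.t st.H) P.b3) +
      (perc d P.p (Er (occ st.H) st.x o (F4 P st.H) P.b4) +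
      perc d P.p (Er (occ st.H) st.x o (fR P R o) (P.v0 / 2))))) := by
  have hsub : {ζ : Cfg d | o ∈ cluster (cut ((occ st.H : Set (V d))ᶜ) ζ) st.x} ⊆
      GE P st.H st.x o R ∪ (Er (occ st.H) st.x o (fun w => gro P.t (w - st.x)) P.b1 ∪
      (Er (occ st.H) st.x o (FK P (d - 4) P.t st.H) P.b3 ∪
      (Er (occ st.H) st.x o (F4 P st.H) P.b4 ∪
      Er (occ st.H) st.x o (fR P R o) (P.v0 / 2)))) := by
    intro ζ hζ
    by_cases e1 : P.b1 < csum (occ st.H) st.x (fun w => gro P.t (w - st.x)) ζ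
    · exact Or.inr (Or.inl ⟨hζ, e1⟩)
    by_cases e3 : P.b3 < csum (occ st.H) st.x (FK P (d - 4) P.t st.H) ζ
    · exact Or.inr (Or.inr (Or.inl ⟨hζ, e3⟩))
    by_cases e4 : P.b4 < csum (occ st.H) st.x (F4 P st.H) ζ
    · exact Or.inr (Or.inr (Or.inr (Or.inl ⟨hζ, e4⟩)))
    by_cases e2 : P.v0 / 2 < csum (occ st.H) st.x (fR P R o) ζ
    · exact Or.inr (Or.inr (Or.inr (Or.inr ⟨hζ, e2⟩)))
    · exact Or.inl (La_surg P ht hb1 st.H st.x o R hx ζ hζ (not_lt.1 e1) (not_lt.1 e3)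
        (not_lt.1 e4) (not_lt.1 e2))
  refine (measure_mono hsub).trans ((measure_union_le _ _).trans ?_)
  refine add_le_add le_rfl ((measure_union_le _ _).trans ?_)
  refine add_le_add le_rfl ((measure_union_le _ _).trans ?_)
  exact add_le_add le_rfl (measure_union_le _ _)

lemma LaMain_sum (P : Par d) (ht : 0 ≤ P.t) (hb1 : P.b1 ≠ ⊤) (st : St d) (R : ℕ)
    (Q : Finset (V d)) (hx : ∀ o ∈ Q, R < nm (st.x - o)) :
    ∑ o ∈ Q, off P.p (occ st.H) st.x o ≤ (Gs P st R Q + Ns P st R Q) +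
      (Es P st (fun _ w => gro P.t (w - st.x)) P.b1 Q +
      (Es P st (fun _ => FK P (d - 4) P.t st.H) P.b3 Q +
      (Es P st (fun _ => F4 P st.H) P.b4 Q + Es P st (fR P R) (P.v0 / 2) Q))) := by
  unfold Gs Ns Es
  rw [← Finset.sum_add_distrib, ← Finset.sum_add_distrib, ← Finset.sum_add_distrib,
    ← Finset.sum_add_distrib, ← Finset.sum_add_distrib]
  refine Finset.sum_le_sum fun o ho => ?_
  by_cases hf : farH P st.H R o
  · rw [if_pos hf, if_pos hf, add_zero]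
    exact LaMain_one P ht hb1 st o R (hx o ho)
  · rw [if_neg hf, if_neg hf, zero_add]
    exact le_self_add

lemma LaMain_fin (P : Par d) (h0 : 0 ≤ P.p) (h1 : P.p ≤ 1) (st : St d) (hst : good P st) (v : V d)
    (hv : v ∈ steps P.i0) (R n : ℕ) (hR : 1 ≤ R) (hR1 : d * R ≤ P.R1) (hn : n + R < P.L / 2) :
    ENNReal.ofReal ((1 - P.p) ^ (d * (2 * R + 1) ^ d)) * Gs P st R (QQ P st v n) ≤
      (((2 * R + 1) ^ d : ℕ) : ℝ≥0∞) *
        ∑' B : Finset (V d), cl P.p (occ st.H) st.x B * cnt P st v B := by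
  refine le_trans ?_ (La_cnt P st v R (QQ P st v n))
  unfold Gs
  rw [Finset.mul_sum]
  refine Finset.sum_le_sum fun o ho => ?_
  by_cases hf : farH P st.H R o
  · rw [if_pos hf]
    exact La_ind P h0 h1 st hst v hv o R hR hR1 hf fun y hy => QQ_cell hn ho hy
  · rw [if_neg hf, mul_zero]
    exact zero_le

/-- `b E ≤ B`, `b ≥ ofReal b'` gives `E ≤ ofReal (B' / b')`. -/
lemma LaMain_div {b E : ℝ≥0∞} {b' B' : ℝ} (hb' : 0 < b') (hb : ENNReal.ofReal b' ≤ b)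
    (h : b * E ≤ ENNReal.ofReal B') : E ≤ ENNReal.ofReal (B' / b') := by
  have h1 : ENNReal.ofReal b' * E ≤ ENNReal.ofReal B' := (mul_le_mul' hb le_rfl).trans h
  rw [ENNReal.ofReal_div_of_pos hb', ENNReal.le_div_iff_mul_le]
  · rwa [mul_comm]
  · left
    exact (ENNReal.ofReal_pos.2 hb').ne'
  · left
    exact ENNReal.ofReal_ne_top

/-- The final arithmetic. -/
lemma LaMain_arith {M M' G N E1 E3 E4 E2 : ℝ≥0∞} {X : ℝ} (hX0 : 0 ≤ X)
    (hsum : M ≤ (G + N) + (E1 + (E3 + (E4 + E2)))) (hN : N ≤ ENNReal.ofReal (X / 16))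
    (h1 : E1 ≤ ENNReal.ofReal (X / 16)) (h3 : E3 ≤ ENNReal.ofReal (X / 16))
    (h4 : E4 ≤ ENNReal.ofReal (X / 16))
    (h2 : E2 ≤ ENNReal.ofReal (1 / 16) * (M' + ENNReal.ofReal X)) (hM' : M' ≤ 2 * M)
    (hX : ENNReal.ofReal X ≤ M) (hMt : M ≠ ⊤) : ENNReal.ofReal (X / 2) ≤ G := by
  by_cases hG : G = ⊤
  · rw [hG]
    exact le_top
  obtain ⟨μ, hμ⟩ : ∃ μ : ℝ, μ = M.toReal := ⟨_, rfl⟩
  obtain ⟨g, hg⟩ : ∃ g : ℝ, g = G.toReal := ⟨_, rfl⟩
  have hμ0 : 0 ≤ μ := by rw [hμ]; exact ENNReal.toReal_nonneg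
  have hg0 : 0 ≤ g := by rw [hg]; exact ENNReal.toReal_nonneg
  have eM : M = ENNReal.ofReal μ := by rw [hμ, ENNReal.ofReal_toReal hMt]
  have eG : G = ENNReal.ofReal g := by rw [hg, ENNReal.ofReal_toReal hG]
  have hXμ : X ≤ μ := by
    rw [eM] at hX
    exact (ENNReal.ofReal_le_ofReal_iff hμ0).1 hX
  have h2' : E2 ≤ ENNReal.ofReal ((2 * μ + X) / 16) := by
    refine h2.trans ((mul_le_mul' le_rfl (add_le_add hM' le_rfl)).trans (le_of_eq ?_))
    have e2 : (2 : ℝ≥0∞) = ENNReal.ofReal 2 := by norm_num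
    rw [eM, e2, ← ENNReal.ofReal_mul (by norm_num), ← ENNReal.ofReal_add (by positivity) hX0,
      ← ENNReal.ofReal_mul (by norm_num)]
    congr 1
    ring
  have h5 : ENNReal.ofReal μ ≤ ENNReal.ofReal ((g + X / 16) + (X / 16 + (X / 16 + (X / 16 +
      (2 * μ + X) / 16)))) := by
    rw [ENNReal.ofReal_add (by positivity) (by positivity), ENNReal.ofReal_add hg0 (by positivity),
      ENNReal.ofReal_add (by positivity) (by positivity),
      ENNReal.ofReal_add (by positivity) (by positivity),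
      ENNReal.ofReal_add (by positivity) (by positivity), ← eM, ← eG]
    refine hsum.trans ?_
    gcongr
  have h6 := (ENNReal.ofReal_le_ofReal_iff (by positivity)).1 h5
  rw [eG]
  apply ENNReal.ofReal_le_ofReal
  linarith

/-- From the outer clusters to the extensions. -/
lemma LaMain_last {G T : ℝ≥0∞} {X q q0 : ℝ} {K : ℕ} (hK : 0 < K) (hq0 : 0 ≤ q0) (hq : q0 ≤ q)
    (hG : ENNReal.ofReal (X / 2) ≤ G) (h : ENNReal.ofReal q * G ≤ (K : ℝ≥0∞) * T) :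
    ENNReal.ofReal (X / 2 * q0 / K) ≤ T := by
  have h1 : ENNReal.ofReal q0 * ENNReal.ofReal (X / 2) ≤ (K : ℝ≥0∞) * T :=
    (mul_le_mul' (ENNReal.ofReal_le_ofReal hq) hG).trans h
  rw [← ENNReal.ofReal_mul hq0] at h1
  have hKr : (0 : ℝ) < K := by exact_mod_cast hK
  have h2 : (K : ℝ≥0∞) = ENNReal.ofReal (K : ℝ) := by simp
  rw [ENNReal.ofReal_div_of_pos hKr]
  refine ENNReal.div_le_of_le_mul ?_
  rw [← h2, mul_comm T, mul_comm (X / 2)]
  exact h1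

/-- Choice of the surgery radius. -/
lemma LaMain_R (C2 v0 : ℝ) (hC2 : 0 < C2) (hv0 : 0 < v0) :
    ∃ R : ℕ, 1 ≤ R ∧ C2 / (1 + (R : ℝ)) / (v0 / 2) ≤ 1 / 16 := by
  refine ⟨⌈32 * C2 / v0⌉₊ + 1, by omega, ?_⟩
  have h1 : 32 * C2 / v0 ≤ (⌈32 * C2 / v0⌉₊ : ℝ) := Nat.le_ceil _
  set R : ℕ := ⌈32 * C2 / v0⌉₊ + 1 with hR
  have h2 : 32 * C2 / v0 ≤ 1 + (R : ℝ) := by
    rw [hR]
    push_cast
    linarith
  have h3 : (0 : ℝ) < 1 + (R : ℝ) := by positivity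
  rw [div_le_iff₀ hv0] at h2
  rw [div_div, div_le_div_iff₀ (by positivity) (by norm_num)]
  nlinarith

lemma LaMain_m (C7 c6 : ℝ) (hc6 : 0 < c6) : ∃ m : ℕ, 1 ≤ m ∧ C7 < 2 ^ m * c6 := by
  obtain ⟨m, hm⟩ := pow_unbounded_of_one_lt (C7 / c6) (by norm_num : (1 : ℝ) < 2)
  refine ⟨m + 1, by omega, ?_⟩
  rw [div_lt_iff₀ hc6] at hm
  have : (2 : ℝ) ^ m * c6 ≤ 2 ^ (m + 1) * c6 := by
    apply mul_le_mul_of_nonneg_right _ hc6.le
    exact pow_le_pow_right₀ (by norm_num) (by omega)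
  linarith

theorem La_main (hd : 9 ≤ d) (κ a0 A1 pm pM : ℝ) (hκ : 0 < κ) (ha0 : 0 < a0) (hA1 : 0 < A1)
    (hpm : 0 < pm) (hpM : pM < 1) :
    ∃ (v0 Λ c3 : ℝ) (R1 : ℕ), 0 < v0 ∧ 0 < Λ ∧ 0 < c3 ∧
      ∀ (gr β : ℝ), 1 < gr → gr ^ 112 ≤ Real.exp (2 * κ) → 0 < β → ∃ l0 : ℕ,
      ∀ (P : Par d) (l : ℕ), l0 ≤ l → P.L = l ^ 7 → P.t = κ / P.L → P.R1 = R1 →
        P.v0 = ENNReal.ofReal v0 → P.g = ENNReal.ofReal gr →
        P.b1 = ENNReal.ofReal (Λ * (P.L : ℝ) ^ 4) →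
        ENNReal.ofReal (β * (P.L : ℝ) ^ 4) ≤ P.b3 → ENNReal.ofReal (β * (P.L : ℝ) ^ 2) ≤ P.b4 →
        pm ≤ P.p → P.p ≤ pM → TauUp d P.p P.t A1 →
        (∀ x : V d, nm x ≤ 6 * P.L → ENNReal.ofReal a0 * ker (d - 2) 0 x ≤ tau d P.p x) →
        ∀ st : St d, good P st → ∀ v ∈ steps P.i0,
          ENNReal.ofReal (c3 * (P.L : ℝ) ^ 2) ≤
            ∑' B : Finset (V d), cl P.p (occ st.H) st.x B * cnt P st v B := by
  classical
  obtain ⟨v0, c5, hv0, hc5, hlow⟩ := La_low (d := d) hd κ a0 A1 pm hκ ha0 hA1 hpm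
  obtain ⟨C7, hC7, hup⟩ := La_up (d := d) hd κ A1 hκ hA1
  obtain ⟨C1, hC1, he1⟩ := La_er1 (d := d) hd κ A1 hκ hA1
  obtain ⟨C3, hC3, he3⟩ := La_er3 (d := d) hd κ A1 hκ hA1
  obtain ⟨C4, hC4, he4⟩ := La_er4 (d := d) hd κ A1 hκ hA1
  obtain ⟨C2, hC2, he2⟩ := La_er2 (d := d) hd κ A1 hκ hA1
  obtain ⟨R, hR1, hR2⟩ := LaMain_R C2 v0 hC2 hv0
  obtain ⟨c6, hc6d⟩ : ∃ c6 : ℝ, c6 = pm ^ (d * R) * c5 := ⟨_, rfl⟩
  have hc6 : 0 < c6 := by rw [hc6d]; positivity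
  obtain ⟨m, hm1, hm2⟩ := LaMain_m C7 c6 hc6
  obtain ⟨Λ, hΛd⟩ : ∃ Λ : ℝ, Λ = 16 * C1 / c6 := ⟨_, rfl⟩
  have hΛ : 0 < Λ := by rw [hΛd]; positivity
  have hK : 0 < (2 * R + 1) ^ d := by positivity
  have hKr : (0 : ℝ) < (((2 * R + 1) ^ d : ℕ) : ℝ) := by exact_mod_cast hK
  have hq0 : 0 < (1 - pM) ^ (d * (2 * R + 1) ^ d) := pow_pos (by linarith) _
  refine ⟨v0, Λ, c6 / 2 * (1 - pM) ^ (d * (2 * R + 1) ^ d) / (((2 * R + 1) ^ d : ℕ) : ℝ), d * R,
    hv0, hΛ, by positivity, fun gr β hgr hg112 hβ => ?_⟩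
  obtain ⟨Cf, hCf, hfar⟩ := La_far (d := d) hd κ A1 Λ v0 hκ hA1 hΛ hv0 R
  obtain ⟨η, hηd⟩ : ∃ η : ℝ, η = β * c6 / (16 * (C3 + C4)) := ⟨_, rfl⟩
  have hη : 0 < η := by rw [hηd]; positivity
  obtain ⟨l1, hpot⟩ := hist_pot (d := d) hd κ Λ η gr hκ hΛ hη hgr hg112
  obtain ⟨Th, hTh⟩ : ∃ Th : ℝ, Th = 16 * ((R : ℝ) + 1) + d * R + κ + 16 * Cf / c6 +
    (16 * (m : ℝ)) ^ 4 / c6 := ⟨_, rfl⟩
  refine ⟨max l1 (⌈Th⌉₊ + 1), ?_⟩
  intro P l hl hL ht hR1P hv0P hg hb1 hb3 hb4 hpmP hpMP htau hlowt st hst v hv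
  have hl1 : l1 ≤ l := (le_max_left _ _).trans hl
  have hl2 : ⌈Th⌉₊ + 1 ≤ l := (le_max_right _ _).trans hl
  have hlpos : 1 ≤ l := by omega
  have hLl : l ≤ P.L := by
    rw [hL]
    exact Nat.le_self_pow (by norm_num) l
  have hThL : Th ≤ (P.L : ℝ) := by
    have h1 : Th ≤ (⌈Th⌉₊ : ℝ) := Nat.le_ceil _
    have h2 : (⌈Th⌉₊ : ℝ) ≤ (P.L : ℝ) := by
      exact_mod_cast (by omega : ⌈Th⌉₊ ≤ P.L)
    linarith
  have hA : (0 : ℝ) ≤ 16 * ((R : ℝ) + 1) := by positivity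
  have hB : (0 : ℝ) ≤ (d : ℝ) * R := by positivity
  have hC : (0 : ℝ) ≤ 16 * Cf / c6 := by positivity
  have hD : (0 : ℝ) ≤ (16 * (m : ℝ)) ^ 4 / c6 := by positivity
  have hLR : 16 * (R + 1) ≤ P.L := by
    have : 16 * ((R : ℝ) + 1) ≤ (P.L : ℝ) := by rw [hTh] at hThL; linarith
    exact_mod_cast this
  have hLdR : d * R ≤ P.L := by
    have : (d : ℝ) * R ≤ (P.L : ℝ) := by rw [hTh] at hThL; linarith
    exact_mod_cast this
  have hLκ : κ ≤ (P.L : ℝ) := by rw [hTh] at hThL; linarith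
  have hLCf : 16 * Cf / c6 ≤ (P.L : ℝ) := by rw [hTh] at hThL; linarith
  have hLm : (16 * (m : ℝ)) ^ 4 / c6 ≤ (P.L : ℝ) := by rw [hTh] at hThL; linarith
  have hL1 : 1 ≤ P.L := by omega
  have hL16 : 16 ≤ P.L := by omega
  have hLr : (1 : ℝ) ≤ (P.L : ℝ) := by exact_mod_cast hL1
  have hL0 : (0 : ℝ) < (P.L : ℝ) := by linarith
  have hLsq : (P.L : ℝ) ≤ (P.L : ℝ) ^ 2 := by nlinarith
  have ht0 : 0 ≤ P.t := by rw [ht]; positivity
  have hp0 := htau.h0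
  have hp1 := htau.h1
  have hb1t : P.b1 ≠ ⊤ := by rw [hb1]; exact ENNReal.ofReal_ne_top
  have hxz : st.z P.i0 ≤ st.x P.i0 := (mem_cell.1 (good_cell hL1 hst) P.i0).1
  obtain ⟨hp8, hp4⟩ := hpot P l hl1 hL ht hg hb1 st hst st.x hxz
  obtain ⟨X, hXd⟩ : ∃ X : ℝ, X = c6 * (P.L : ℝ) ^ 2 := ⟨_, rfl⟩
  have hX0 : 0 < X := by rw [hXd]; positivity
  -- the radii
  obtain ⟨r, hrd⟩ : ∃ r : ℕ, r = P.L / (16 * m) := ⟨_, rfl⟩
  have hr1 : m * r ≤ P.L / 16 := by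
    rw [hrd, ← Nat.div_div_eq_div_mul]
    exact Nat.mul_div_le _ _
  have hr2 : P.L ≤ 16 * m * (r + 1) := by
    rw [hrd]
    have h := Nat.lt_mul_div_succ P.L (by omega : 0 < 16 * m)
    exact h.le
  have hrad : ∀ i ≤ m, P.L / 8 + i * r + R < P.L / 2 := by
    intro i hi
    have h1 : i * r ≤ m * r := Nat.mul_le_mul_right _ hi
    omega
  -- the pigeonhole
  obtain ⟨i, him, hi2⟩ := LaMain_pig
    (fun i => ∑ u ∈ QQ P st v (P.L / 8 + i * r), off P.p (occ st.H) st.x u) m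
    (ENNReal.ofReal X) (by
      have h := hlow P hL16 (by rw [hR1P]; exact hLdR) ht hv0P hpmP htau hlowt st hst v hv
      simp only [zero_mul, add_zero]
      refine le_trans (le_of_eq ?_) h
      rw [hR1P, hXd, hc6d, mul_assoc]) (by
      have h := hup P hL1 ht htau (occ st.H) st.x (QQ P st v (P.L / 8 + m * r))
        (QQ_card (by have := hrad m le_rfl; omega))
      refine lt_of_le_of_lt h ?_
      have e2 : (2 : ℝ≥0∞) ^ m = ENNReal.ofReal ((2 : ℝ) ^ m) := by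
        rw [ENNReal.ofReal_pow (by norm_num)]
        norm_num
      rw [e2, ← ENNReal.ofReal_mul (by positivity), ENNReal.ofReal_lt_ofReal_iff (by positivity),
        hXd, ← mul_assoc]
      exact mul_lt_mul_of_pos_right hm2 (by positivity))
  obtain ⟨n, hnd⟩ : ∃ n : ℕ, n = P.L / 8 + i * r := ⟨_, rfl⟩
  have hn1 : P.L / 8 + (i + 1) * r = n + r := by rw [hnd]; ring
  rw [← hnd, hn1] at hi2
  have hnR : n + R < P.L / 2 := by rw [hnd]; exact hrad i him.le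
  have hn : n < P.L / 2 := by omega
  have hcard := QQ_card (P := P) (st := st) (v := v) hn
  have hcell := good_cell hL1 hst
  have hdist : ∀ o ∈ QQ P st v n, P.L + 1 ≤ nm (o - st.x) := fun o ho =>
    (cell_dist hL1 hv hcell (QQ_sub hn ho)).1
  have hdist' : ∀ o ∈ QQ P st v n, P.L ≤ nm (o - st.x) := fun o ho => by
    have := hdist o ho
    omega
  have hsum := LaMain_sum P ht0 hb1t st R (QQ P st v n) (fun o ho => by
    have := hdist o ho
    rw [nm_sub_comm]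
    omega)
  -- the lower bound of the sum over the cube
  have hMX : ENNReal.ofReal X ≤ ∑ u ∈ QQ P st v n, off P.p (occ st.H) st.x u := by
    have h := hlow P hL16 (by rw [hR1P]; exact hLdR) ht hv0P hpmP htau hlowt st hst v hv
    refine le_trans (le_of_eq ?_) (h.trans (Finset.sum_le_sum_of_subset ?_))
    · rw [hR1P, hXd, hc6d, mul_assoc]
    · intro u hu
      rw [mem_QQ] at hu ⊢
      have : P.L / 8 ≤ n := by rw [hnd]; exact Nat.le_add_right _ _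
      omega
  have hMt : ∑ u ∈ QQ P st v n, off P.p (occ st.H) st.x u ≠ ⊤ :=
    ne_top_of_le_ne_top ENNReal.ofReal_ne_top (hup P hL1 ht htau _ _ _ hcard)
  -- the errors
  have hNs : Ns P st R (QQ P st v n) ≤ ENNReal.ofReal (X / 16) := by
    have h := hfar P hL1 hLκ ht hv0P hb1 htau st hst v hv
    refine le_trans (Finset.sum_le_sum_of_subset (QQ_sub hn)) (h.trans ?_)
    apply ENNReal.ofReal_le_ofReal
    rw [div_le_iff₀ hc6] at hLCf
    rw [hXd]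
    nlinarith
  have hE1 : Es P st (fun _ w => gro P.t (w - st.x)) P.b1 (QQ P st v n) ≤
      ENNReal.ofReal (X / 16) := by
    have h := (LaMain_E P hp0 hp1 st (fun _ w => gro P.t (w - st.x)) P.b1 (QQ P st v n)).trans
      (he1 P hL1 hLκ ht htau (occ st.H) st.x _ hcard hdist')
    refine (LaMain_div (b' := Λ * (P.L : ℝ) ^ 4) (by positivity) hb1.ge h).trans (le_of_eq ?_)
    rw [hXd, hΛd]
    congr 1
    field_simp
  have hE3 : Es P st (fun _ => FK P (d - 4) P.t st.H) P.b3 (QQ P st v n) ≤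
      ENNReal.ofReal (X / 16) := by
    have h := (LaMain_E P hp0 hp1 st (fun _ => FK P (d - 4) P.t st.H) P.b3 (QQ P st v n)).trans
      ((he3 P hL1 ht htau (occ st.H) st.x _ hcard st.H).trans (mul_le_mul' le_rfl hp8))
    rw [← ENNReal.ofReal_mul (by positivity)] at h
    refine (LaMain_div (b' := β * (P.L : ℝ) ^ 4) (by positivity) hb3 h).trans ?_
    apply ENNReal.ofReal_le_ofReal
    rw [div_le_iff₀ (by positivity), hXd, hηd]
    have e1 : C3 * (P.L : ℝ) ^ 2 * (β * c6 / (16 * (C3 + C4)) * (P.L : ℝ) ^ 4) =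
        (β * c6 * (P.L : ℝ) ^ 6 / 16) * (C3 / (C3 + C4)) := by
      field_simp
    have e2 : c6 * (P.L : ℝ) ^ 2 / 16 * (β * (P.L : ℝ) ^ 4) =
        (β * c6 * (P.L : ℝ) ^ 6 / 16) * 1 := by ring
    rw [e1, e2]
    apply mul_le_mul_of_nonneg_left _ (by positivity)
    rw [div_le_one (by positivity)]
    linarith
  have hE4 : Es P st (fun _ => F4 P st.H) P.b4 (QQ P st v n) ≤
      ENNReal.ofReal (X / 16) := by
    have h := (LaMain_E P hp0 hp1 st (fun _ => F4 P st.H) P.b4 (QQ P st v n)).trans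
      ((he4 P hL1 ht htau (occ st.H) st.x _ hcard st.H).trans (mul_le_mul' le_rfl hp4))
    rw [← ENNReal.ofReal_mul (by positivity)] at h
    refine (LaMain_div (b' := β * (P.L : ℝ) ^ 2) (by positivity) hb4 h).trans ?_
    apply ENNReal.ofReal_le_ofReal
    rw [div_le_iff₀ (by positivity), hXd, hηd]
    have e1 : C4 * (P.L : ℝ) ^ 2 * (β * c6 / (16 * (C3 + C4)) * (P.L : ℝ) ^ 2) =
        (β * c6 * (P.L : ℝ) ^ 4 / 16) * (C4 / (C3 + C4)) := by
      field_simp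
    have e2 : c6 * (P.L : ℝ) ^ 2 / 16 * (β * (P.L : ℝ) ^ 2) =
        (β * c6 * (P.L : ℝ) ^ 4 / 16) * 1 := by ring
    rw [e1, e2]
    apply mul_le_mul_of_nonneg_left _ (by positivity)
    rw [div_le_one (by positivity)]
    linarith
  have hE2 : Es P st (fR P R) (P.v0 / 2) (QQ P st v n) ≤ ENNReal.ofReal (1 / 16) *
      (∑ u ∈ QQ P st v (n + r), off P.p (occ st.H) st.x u + ENNReal.ofReal X) := by
    have h := (LaMain_E P hp0 hp1 st (fR P R) (P.v0 / 2) (QQ P st v n)).trans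
      (he2 P hL1 ht htau (occ st.H) st.x _ (QQ P st v (n + r)) R r hcard hdist'
        (fun o ho u hu => QQ_dist ho hu))
    have e1 : P.v0 / 2 = ENNReal.ofReal (v0 / 2) := by
      rw [hv0P, ENNReal.ofReal_div_of_pos (by norm_num)]
      norm_num
    rw [e1] at h ⊢
    have h2 : ENNReal.ofReal ((P.L : ℝ) ^ 4 / (1 + (r : ℝ)) ^ 4) ≤ ENNReal.ofReal X := by
      apply ENNReal.ofReal_le_ofReal
      have h3 : (P.L : ℝ) ≤ 16 * m * (1 + (r : ℝ)) := by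
        have : ((P.L : ℕ) : ℝ) ≤ ((16 * m * (r + 1) : ℕ) : ℝ) := by exact_mod_cast hr2
        push_cast at this
        linarith
      have h4 : (P.L : ℝ) ^ 4 / (1 + (r : ℝ)) ^ 4 ≤ (16 * (m : ℝ)) ^ 4 := by
        rw [div_le_iff₀ (by positivity), ← mul_pow]
        exact pow_le_pow_left₀ hL0.le h3 4
      rw [div_le_iff₀ hc6] at hLm
      rw [hXd]
      nlinarith
    have hv2 : (0 : ℝ) < v0 / 2 := by positivity
    have h5 : Es P st (fR P R) (ENNReal.ofReal (v0 / 2)) (QQ P st v n) ≤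
        ENNReal.ofReal (C2 / (1 + (R : ℝ)) / (v0 / 2)) *
          (∑ u ∈ QQ P st v (n + r), off P.p (occ st.H) st.x u +
            ENNReal.ofReal ((P.L : ℝ) ^ 4 / (1 + (r : ℝ)) ^ 4)) := by
      rw [ENNReal.ofReal_div_of_pos hv2, ← ENNReal.mul_div_right_comm, ENNReal.le_div_iff_mul_le]
      · rwa [mul_comm]
      · left
        exact (ENNReal.ofReal_pos.2 hv2).ne'
      · left
        exact ENNReal.ofReal_ne_top
    refine h5.trans (mul_le_mul' (ENNReal.ofReal_le_ofReal hR2) (add_le_add le_rfl h2))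
  have hG := LaMain_arith hX0.le hsum hNs hE1 hE3 hE4 hE2 hi2 hMX hMt
  have hfin := LaMain_fin P hp0 hp1 st hst v hv R n hR1 hR1P.ge hnR
  have hq : (1 - pM) ^ (d * (2 * R + 1) ^ d) ≤ (1 - P.p) ^ (d * (2 * R + 1) ^ d) :=
    pow_le_pow_left₀ (by linarith) (by linarith) _
  have hlast := LaMain_last hK hq0.le hq hG hfin
  refine le_trans (le_of_eq ?_) hlast
  rw [hXd]
  congr 1
  ring

end CF
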