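import Pool.Agent.H12.CF.LaDef

/-!
PROJECT CF (MP_0d9ad5_pr, note 2718), LEMMA A, JOB CF-LaSurg: surgery, first half (deterministic).
PROOF. `B` = the set of the outer cluster `Co = cluster (cut Sᶜ (shut o R ζ)) x`, `C = cluster (cut Sᶜ ζ) x`.
`Co ⊆ C` (fewer open edges). `h1` and `1 ≤ gro` (`one_le_gro`), `P.b1 ≠ ⊤`: `C` is finite (else the sum is
`⊤`: `ENNReal.tsum_const_eq_top_of_ne_zero`, or `Set.Finite` by contradiction), so `Co` is finite, `B` exists.
`gc`: sums over `B` are at most the `csum` (`ENNReal.sum_le_tsum`). No point of `Co` is at distance `< R` from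
`o`: by induction along the connection (`Cn.ind`), every step edge is open in `shut o R ζ`, so not both ends
lie in the ball; a point at distance `< R` has all neighbours in the ball (`nm_step`); `x` is at distance `> R`.
`Co` touches the ball: follow the connection from `x` to `o` in `C` (`Cn.ind` with the statement
`y ∈ Co ∧ R < nm (y - o)` or the ball is touched by `Co`).
Potential: all points of `B` have distance `≥ R`, so the sum is at most the `csum` of `fR`.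
-/

namespace CF

open H5DF H95LBD MeasureTheory
open scoped ENNReal

variable {d : ℕ}

lemma LaSurg_mono (S : Set (V d)) (x o : V d) (R : ℕ) (ζ : Cfg d) {y : V d}
    (h : Cn S (shut o R ζ) x y) : Cn S ζ x y := by
  refine h.mono (le_refl S) fun e he => ?_
  unfold shut at he
  rw [Bool.and_eq_true] at he
  exact he.1

lemma LaSurg_ins {o y : V d} {R : ℕ} {s : Dir d} :
    (edge y s : Ed d) ∈ ins (Bx o R) ↔ nm (y - o) ≤ R ∧ nm (y + step s - o) ≤ R := by
  rw [edge_mem_ins, mem_Bx, mem_Bx]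

lemma LaSurg_far (S : Set (V d)) (x o : V d) (R : ℕ) (ζ : Cfg d) (hx : R < nm (x - o)) {y : V d}
    (h : Cn S (shut o R ζ) x y) : R ≤ nm (y - o) := by
  refine Cn.ind (fun y => R ≤ nm (y - o)) hx.le ?_ h
  intro y s _ h1 _ _ h4
  by_contra hc
  have h6 : nm (y - o) ≤ R := by
    have h7 := nm_add_step (y + step s - o) (opp s)
    rw [step_opp] at h7
    have h8 : y + step s - o + -step s = y - o := by abel
    rw [h8] at h7
    have h9 : nm (y + step s - o) < R := not_le.1 hc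
    omega
  have h5 : (edge y s : Ed d) ∈ ins (Bx o R) := LaSurg_ins.2 ⟨h6, (not_le.1 hc).le⟩
  simp [shut, h5] at h4

lemma LaSurg_touch (S : Set (V d)) (x o : V d) (R : ℕ) (ζ : Cfg d) (hF : Cn S ζ x o) :
    ∃ b : V d, Cn S (shut o R ζ) x b ∧ nm (b - o) ≤ R := by
  by_contra hc
  push Not at hc
  have h1 : Cn S (shut o R ζ) x o := by
    refine Cn.ind (fun y => Cn S (shut o R ζ) x y) (Cn.refl _ _ _) ?_ hF
    intro y s _ h2 h3 h4 h5
    refine h2.trans (Cn.one ?_ h3 h4)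
    have h6 := hc y h2
    have h7 : (edge y s : Ed d) ∉ ins (Bx o R) := fun h8 => by
      have h9 := (LaSurg_ins.1 h8).1
      omega
    simp [shut, h7, h5]
  have h2 := hc o h1
  rw [sub_self, nm_zero] at h2
  omega

lemma LaSurg_finite (t : ℝ) (ht : 0 ≤ t) (S : Finset (V d)) (x : V d) (ζ : Cfg d)
    (h : csum S x (fun w => gro t (w - x)) ζ ≠ ⊤) :
    (cluster (cut ((S : Set (V d))ᶜ) ζ) x).Finite := by
  refine (ENNReal.finite_const_le_of_tsum_ne_top h one_ne_zero).subset fun w hw => ?_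
  show (1 : ℝ≥0∞) ≤ (cluster (cut ((S : Set (V d))ᶜ) ζ) x).indicator _ w
  rw [Set.indicator_of_mem hw]
  exact one_le_gro ht _

lemma LaSurg_sum (S : Finset (V d)) (x : V d) (f g : V d → ℝ≥0∞) (ζ : Cfg d) (B : Finset (V d))
    (hB : ∀ w ∈ B, w ∈ cluster (cut ((S : Set (V d))ᶜ) ζ) x) (hfg : ∀ w ∈ B, f w ≤ g w) :
    ∑ w ∈ B, f w ≤ csum S x g ζ := by
  refine le_trans (Finset.sum_le_sum fun w hw => ?_) (ENNReal.sum_le_tsum B)
  rw [Set.indicator_of_mem (hB w hw)]
  exact hfg w hw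

theorem La_surg (P : Par d) (ht : 0 ≤ P.t) (hb1 : P.b1 ≠ ⊤) (H : List (Ent d)) (x o : V d) (R : ℕ)
    (hx : R < nm (x - o)) (ζ : Cfg d)
    (hF : o ∈ cluster (cut ((occ H : Set (V d))ᶜ) ζ) x)
    (h1 : csum (occ H) x (fun w => gro P.t (w - x)) ζ ≤ P.b1)
    (h3 : csum (occ H) x (FK P (d - 4) P.t H) ζ ≤ P.b3)
    (h4 : csum (occ H) x (F4 P H) ζ ≤ P.b4)
    (h2 : csum (occ H) x (fR P R o) ζ ≤ P.v0 / 2) : ζ ∈ GE P H x o R := by
  have hfin : (cluster (cut ((occ H : Set (V d))ᶜ) ζ) x).Finite :=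
    LaSurg_finite P.t ht (occ H) x ζ (ne_top_of_le_ne_top hb1 h1)
  have hsub : cluster (cut ((occ H : Set (V d))ᶜ) (shut o R ζ)) x ⊆
      cluster (cut ((occ H : Set (V d))ᶜ) ζ) x := fun y hy => LaSurg_mono _ x o R ζ hy
  obtain ⟨B, hB⟩ := (hfin.subset hsub).exists_finset_coe
  have hBm : ∀ w ∈ B, w ∈ cluster (cut ((occ H : Set (V d))ᶜ) (shut o R ζ)) x := fun w hw => by
    rw [← hB]
    exact hw
  have hB1 : ∀ w ∈ B, w ∈ cluster (cut ((occ H : Set (V d))ᶜ) ζ) x := fun w hw =>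
    hsub (hBm w hw)
  have hfar : ∀ w ∈ B, R ≤ nm (w - o) := fun w hw => LaSurg_far _ x o R ζ hx (hBm w hw)
  refine ⟨B, hB.symm, ⟨?_, ?_, ?_⟩, ?_, hfar, ?_⟩
  · exact (LaSurg_sum (occ H) x _ _ ζ B hB1 fun _ _ => le_rfl).trans h1
  · exact (LaSurg_sum (occ H) x _ _ ζ B hB1 fun _ _ => le_rfl).trans h3
  · exact (LaSurg_sum (occ H) x _ _ ζ B hB1 fun _ _ => le_rfl).trans h4
  · obtain ⟨b, hb, hb2⟩ := LaSurg_touch _ x o R ζ hF
    refine ⟨b, ?_, hb2⟩
    have hb3 : b ∈ (B : Set (V d)) := by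
      rw [hB]
      exact hb
    exact hb3
  · refine (LaSurg_sum (occ H) x _ (fR P R o) ζ B hB1 fun w hw => ?_).trans h2
    unfold fR
    rw [if_pos (hfar w hw)]

end CF
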